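import Mathlib
import Pool.Agent.H944.BX.Zero

set_option autoImplicit false

/-!
Parity changes along the list of the elements of a cycle of `T_{a,b}` in increasing order: the number of the
elements between `2 ^ s y` and `2 ^ (s + 1) y`.
-/

namespace Pool.Agent.V5helper2.PC

open Finset Pool.Agent.H944.BX

/-- `p.1` and `p.2` are neighbours in `Z` -/
def Adj (Z : Finset ℤ) (p : ℤ × ℤ) : Prop := p.1 < p.2 ∧ ∀ z ∈ Z, ¬ (p.1 < z ∧ z < p.2)

/-- the pairs of neighbours of different parity -/
noncomputable def chg (Z : Finset ℤ) : Finset (ℤ × ℤ) := by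
  classical
  exact (Z ×ˢ Z).filter fun p => p.1 < p.2 ∧ (∀ z ∈ Z, ¬ (p.1 < z ∧ z < p.2)) ∧ p.1 % 2 ≠ p.2 % 2

theorem mem_chg {Z : Finset ℤ} {p : ℤ × ℤ} : p ∈ chg Z ↔
    p.1 ∈ Z ∧ p.2 ∈ Z ∧ p.1 < p.2 ∧ (∀ z ∈ Z, ¬ (p.1 < z ∧ z < p.2)) ∧ p.1 % 2 ≠ p.2 % 2 := by
  unfold chg
  rw [mem_filter, mem_product]
  tauto

/-- Between two elements of different parity there are neighbours of different parity. -/
theorem exists_chg (Z : Finset ℤ) : ∀ (m : ℕ) (x y : ℤ), x ∈ Z → y ∈ Z → x < y → (y - x).toNat ≤ m →
    x % 2 ≠ y % 2 → ∃ p ∈ chg Z, x ≤ p.1 ∧ p.2 ≤ y := by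
  intro m
  induction m with
  | zero => intro x y _ _ h1 h2 _; omega
  | succ m ih =>
    intro x y hx hy hxy hm hpar
    by_cases h : ∃ z ∈ Z, x < z ∧ z < y
    · obtain ⟨z, hz, h1, h2⟩ := h
      by_cases h3 : x % 2 = z % 2
      · obtain ⟨p, hp, h4, h5⟩ := ih z y hz hy h2 (by omega) (by rw [← h3]; exact hpar)
        exact ⟨p, hp, by omega, h5⟩
      · obtain ⟨p, hp, h4, h5⟩ := ih x z hx hz h1 (by omega) h3
        exact ⟨p, hp, h4, by omega⟩
    · refine ⟨(x, y), mem_chg.2 ⟨hx, hy, hxy, ?_, hpar⟩, le_rfl, le_rfl⟩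
      intro z hz hc
      exact h ⟨z, hz, hc⟩

theorem exists_chg' {Z : Finset ℤ} {x y : ℤ} (hx : x ∈ Z) (hy : y ∈ Z) (hxy : x < y)
    (hpar : x % 2 ≠ y % 2) : ∃ p ∈ chg Z, x ≤ p.1 ∧ p.2 ≤ y :=
  exists_chg Z _ x y hx hy hxy le_rfl hpar

variable {a b : ℤ}

theorem cst_append (a : ℤ) (u v : List Bool) :
    cst a (u ++ v) = cst a u * a ^ (v.count true) + 2 ^ u.length * cst a v := by
  induction u with
  | nil => simp [cst]
  | cons c u ih =>
    rw [List.cons_append, cst, ih, cst, List.count_append, List.length_cons, pow_succ, pow_add]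
    cases c
    · simp; ring
    · simp; ring

theorem word_one (x : ℤ) : word a b x 1 = [decide (x % 2 = 1)] := rfl

/-- the basic identity -/
theorem iter_eq (hao : a % 2 = 1) (hb : b % 2 = 1) (x : ℤ) (i : ℕ) :
    2 ^ i * (T a b)^[i] x = a ^ ((word a b x i).count true) * x + b * cst a (word a b x i) := by
  have := step hao hb (word a b x i) x (by rw [word_length])
  rwa [word_length] at this

/-- the size of the additive constant while the trajectory is large -/
theorem cst_small (ha : 3 ≤ a) (hao : a % 2 = 1) (hb : b % 2 = 1) {x y : ℤ} (hy : 0 < y) (i : ℕ)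
    (hi : i * |b| ≤ y) (hx : ∀ t < i, y ≤ (T a b)^[t] x) (hx0 : y ≤ x) :
    2 * y * cst a (word a b x i) ≤ i * a ^ ((word a b x i).count true) * x := by
  have hb1 : 1 ≤ |b| := Int.one_le_abs (by rintro rfl; norm_num at hb)
  induction i with
  | zero => simp [word, cst]
  | succ i ih =>
    push_cast at hi
    have h1 := ih (by nlinarith) (fun t ht => hx t (by omega))
    rw [word_add, cst_append, List.count_append, word_one, word_length]
    set k := (word a b x i).count true
    set c := cst a (word a b x i) with hc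
    have hc0 : 0 ≤ c := cst_nonneg ha _
    have hak : 0 < a ^ k := by positivity
    have hxp : 0 < x := by linarith
    have hpos : 0 < a ^ k * x := mul_pos hak hxp
    by_cases hpar : (T a b)^[i] x % 2 = 1
    · rw [decide_eq_true hpar]
      have e1 : List.count true [true] = 1 := rfl
      have e2 : cst a [true] = 1 := by simp [cst]
      rw [e1, e2]
      have h2 := iter_eq hao hb x i
      have h3 := hx i (by omega)
      -- `2 |b| c ≤ a ^ k x`
      have h4 : 2 * (|b| * c) ≤ a ^ k * x := by
        have h5 : 2 * y * (|b| * c) ≤ y * (a ^ k * x) := by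
          calc 2 * y * (|b| * c) = |b| * (2 * y * c) := by ring
            _ ≤ |b| * (i * a ^ k * x) := mul_le_mul_of_nonneg_left h1 (by positivity)
            _ = (i * |b|) * (a ^ k * x) := by ring
            _ ≤ y * (a ^ k * x) := mul_le_mul_of_nonneg_right (by nlinarith) hpos.le
        nlinarith
      have h5 : b * c ≤ |b| * c := mul_le_mul_of_nonneg_right (le_abs_self b) hc0
      have h6 : 2 * (y * 2 ^ i) ≤ 3 * (a ^ k * x) := by
        have h7 : y * 2 ^ i ≤ 2 ^ i * (T a b)^[i] x := by
          rw [mul_comm]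
          exact mul_le_mul_of_nonneg_left h3 (by positivity)
        linarith
      have h8 : 3 * (a ^ k * x) ≤ a * (a ^ k * x) := mul_le_mul_of_nonneg_right ha hpos.le
      push_cast
      rw [pow_add, pow_one]
      nlinarith
    · rw [decide_eq_false hpar]
      have e1 : List.count true [false] = 0 := rfl
      have e2 : cst a [false] = 0 := by simp [cst]
      rw [e1, e2, pow_zero, mul_one, mul_zero, add_zero, add_zero]
      push_cast
      nlinarith

/-- two integers whose first `i` parities agree -/
theorem diff_eq (hao : a % 2 = 1) (hb : b % 2 = 1) {x x' : ℤ} {i : ℕ} (hw : word a b x i = word a b x' i) :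
    2 ^ i * ((T a b)^[i] x' - (T a b)^[i] x) = a ^ ((word a b x i).count true) * (x' - x) := by
  have h1 := iter_eq hao hb x i
  have h2 := iter_eq hao hb x' i
  rw [← hw] at h2
  linear_combination h2 - h1

theorem dvd_diff (hao : a % 2 = 1) (hb : b % 2 = 1) {x x' : ℤ} {i : ℕ}
    (hw : word a b x i = word a b x' i) : (2 : ℤ) ^ i ∣ x' - x := by
  have h3 := diff_eq hao hb hw
  have h4 : IsCoprime ((2 : ℤ) ^ i) (a ^ ((word a b x i).count true)) := by
    apply IsCoprime.pow
    refine ⟨-(a / 2), 1, ?_⟩
    have := Int.emod_add_mul_ediv a 2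
    linarith
  exact h4.dvd_of_dvd_mul_left (Dvd.intro _ h3)

/-- words are equal iff the parities are -/
theorem word_congr {x x' : ℤ} {i : ℕ} (h : ∀ t < i, (T a b)^[t] x % 2 = (T a b)^[t] x' % 2) :
    word a b x i = word a b x' i := by
  unfold word
  apply List.map_congr_left
  intro t ht
  rw [h t (List.mem_range.1 ht)]

/-- **The level lemma.** -/
theorem level (ha : 3 ≤ a) (hao : a % 2 = 1) (hb : b % 2 = 1) {Z : Finset ℤ}
    (hT : ∀ z ∈ Z, T a b z ∈ Z) (hinj : Set.InjOn (T a b) Z) {n s : ℕ} {y : ℤ} (hy : n * |b| ≤ y)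
    (hy0 : 0 < y) (hn : ∀ x ∈ Z, ∀ x' ∈ Z, x' - x < 2 ^ n) :
    (Z.filter fun x => 2 ^ s * y ≤ x ∧ x < 2 ^ (s + 1) * y).card ≤
      1 + n * (n + 1) * (chg Z).card * (2 ^ (s + 1) * n * b.natAbs + 1) +
        n * (Z.filter fun z => y ≤ 2 * z ∧ z < y).card := by
  classical
  have hb1 : 1 ≤ |b| := Int.one_le_abs (by rintro rfl; norm_num at hb)
  have hiter : ∀ z ∈ Z, ∀ i, (T a b)^[i] z ∈ Z := by
    intro z hz i
    induction i with
    | zero => exact hz
    | succ i ih => rw [Function.iterate_succ_apply']; exact hT _ ih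
  have hiinj : ∀ i, Set.InjOn ((T a b)^[i]) Z := by
    intro i
    induction i with
    | zero => intro x _ y _ h; exact h
    | succ i ih =>
      intro x hx z hz h
      rw [Function.iterate_succ_apply', Function.iterate_succ_apply'] at h
      exact ih hx hz (hinj (hiter x hx i) (hiter z hz i) h)
  set X : ℤ := 2 ^ s * y with hX
  have hX2 : (2 : ℤ) ^ (s + 1) * y = 2 * X := by rw [hX, pow_succ]; ring
  have hs1 : (1 : ℤ) ≤ 2 ^ s := one_le_pow₀ (by norm_num)
  have hyX : y ≤ X := by rw [hX]; nlinarith
  rw [hX2]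
  set W := Z.filter fun x => X ≤ x ∧ x < 2 * X with hW
  set V := W.filter fun x => ∃ x' ∈ W, Adj Z (x, x') with hV
  -- all elements of `W` but the largest are in `V`
  have hWV : W.card ≤ 1 + V.card := by
    rcases W.eq_empty_or_nonempty with h | h
    · rw [h]; simp
    · set M := W.max' h with hM
      have hsub : W.erase M ⊆ V := by
        intro x hx
        have hxW := mem_of_mem_erase hx
        have hxM : x < M := lt_of_le_of_ne (le_max' _ _ hxW) (ne_of_mem_erase hx)
        rw [hV, mem_filter]
        refine ⟨hxW, ?_⟩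
        have hne : (W.filter fun z => x < z).Nonempty := ⟨M, mem_filter.2 ⟨max'_mem _ _, hxM⟩⟩
        set x' := (W.filter fun z => x < z).min' hne with hx'
        have hx'mem := min'_mem _ hne
        rw [← hx', mem_filter] at hx'mem
        refine ⟨x', hx'mem.1, hx'mem.2, ?_⟩
        rintro z hz ⟨h1, h2⟩
        simp only at h1 h2
        have hzW : z ∈ W := by
          rw [hW, mem_filter]
          have h3 := (mem_filter.1 hxW).2
          have h4 := (mem_filter.1 hx'mem.1).2
          exact ⟨hz, by omega, by omega⟩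
        have h5 := min'_le _ z (mem_filter.2 ⟨hzW, h1⟩)
        rw [← hx'] at h5
        omega
      have h1 := card_le_card hsub
      have h2 := card_erase_of_mem (max'_mem W h)
      rw [← hM] at h2
      omega
  -- the two kinds of pairs
  set S : ℕ × ℕ × (ℤ × ℤ) → Finset ℤ := fun q => V.filter fun x => ∃ x' ∈ W, Adj Z (x, x') ∧
    (∀ t < q.1, y ≤ (T a b)^[t] x) ∧ word a b x q.1 = word a b x' q.1 ∧
    (word a b x q.1).count true = q.2.1 ∧ (T a b)^[q.1] x ≤ q.2.2.1 ∧ q.2.2.2 ≤ (T a b)^[q.1] x' with hS
  set F : ℕ → Finset ℤ := fun i => V.filter fun x => y ≤ 2 * (T a b)^[i] x ∧ (T a b)^[i] x < y with hF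
  have hcover : V ⊆ ((range n ×ˢ (range (n + 1) ×ˢ chg Z)).biUnion S) ∪ (range n).biUnion F := by
    intro x hxV
    have hxW := (mem_filter.1 hxV).1
    obtain ⟨x', hx'W, hadj⟩ := (mem_filter.1 hxV).2
    have hxZ := (mem_filter.1 hxW).1
    have hx'Z := (mem_filter.1 hx'W).1
    have hlt : x < x' := hadj.1
    -- separation
    have hsep : ∃ i, i < n ∧ (T a b)^[i] x % 2 ≠ (T a b)^[i] x' % 2 := by
      by_contra hcon
      push Not at hcon
      have h1 := dvd_diff hao hb (word_congr hcon)
      have h2 := Int.le_of_dvd (by omega) h1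
      have h3 := hn x hxZ x' hx'Z
      omega
    obtain ⟨hi1, hi2⟩ := Nat.find_spec hsep
    set i := Nat.find hsep with hi
    have hlow : ∀ t < i, (T a b)^[t] x % 2 = (T a b)^[t] x' % 2 := by
      intro t ht
      by_contra hcon
      exact Nat.find_min hsep ht ⟨by omega, hcon⟩
    have hw := word_congr hlow
    rw [mem_union]
    by_cases hfall : ∃ t, t < i ∧ (T a b)^[t] x < y
    · right
      obtain ⟨ht1, ht2⟩ := Nat.find_spec hfall
      set t := Nat.find hfall with ht
      have hprev : ∀ r < t, y ≤ (T a b)^[r] x := by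
        intro r hr
        by_contra hcon
        exact Nat.find_min hfall hr ⟨by omega, by omega⟩
      rw [mem_biUnion]
      refine ⟨t, mem_range.2 (by omega), ?_⟩
      rw [hF, mem_filter]
      refine ⟨hxV, ?_, ht2⟩
      obtain ⟨r, hr⟩ : ∃ r, t = r + 1 := by
        rcases Nat.eq_zero_or_pos t with h0 | h0
        · rw [h0] at ht2
          have h3 := (mem_filter.1 hxW).2.1
          simp only [Function.iterate_zero_apply] at ht2
          omega
        · exact ⟨t - 1, by omega⟩
      have h4 := hprev r (by omega)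
      rw [hr, Function.iterate_succ_apply'] at ht2 ⊢
      rcases Int.emod_two_eq_zero_or_one ((T a b)^[r] x) with h5 | h5
      · have := two_mul_T_even (a := a) (b := b) (x := (T a b)^[r] x) (by omega)
        omega
      · exfalso
        have h6 := two_mul_T_odd hao hb h5
        have h7 : |b| ≤ y := by
          have : (1 : ℤ) ≤ n := by omega
          nlinarith
        have h8 : -|b| ≤ b := neg_abs_le b
        nlinarith
    · left
      push Not at hfall
      rw [mem_biUnion]
      -- the change of parity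
      have hlt' : (T a b)^[i] x < (T a b)^[i] x' := by
        have h1 := diff_eq hao hb hw
        have h2 : 0 < a ^ ((word a b x i).count true) * (x' - x) :=
          mul_pos (by positivity) (by omega)
        rw [← h1] at h2
        have := (mul_pos_iff_of_pos_left (show (0 : ℤ) < 2 ^ i by positivity)).1 h2
        omega
      obtain ⟨p, hp, hp1, hp2⟩ := exists_chg' (hiter x hxZ i) (hiter x' hx'Z i) hlt' hi2
      refine ⟨(i, (word a b x i).count true, p), ?_, ?_⟩
      · rw [mem_product, mem_product]
        refine ⟨mem_range.2 hi1, mem_range.2 ?_, hp⟩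
        have := List.count_le_length (a := true) (l := word a b x i)
        rw [word_length] at this
        show (word a b x i).count true < n + 1
        omega
      · rw [hS, mem_filter]
        exact ⟨hxV, x', hx'W, hadj, hfall, hw, rfl, hp1, hp2⟩
  -- the cardinalities
  have hSc : ∀ q ∈ range n ×ˢ (range (n + 1) ×ˢ chg Z), (S q).card ≤ 2 ^ (s + 1) * n * b.natAbs + 1 := by
    rintro ⟨i, k, p⟩ hq
    rw [mem_product, mem_product] at hq
    obtain ⟨hi, -, hp⟩ := hq
    rw [mem_range] at hi
    simp only at hi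
    rw [mem_chg] at hp
    rcases (S (i, k, p)).eq_empty_or_nonempty with h | h
    · rw [h]; simp
    set m0 := (S (i, k, p)).min' h with hm0
    have hm0S : m0 ∈ S (i, k, p) := min'_mem _ _
    set R : ℤ := 2 ^ s * n * |b| with hR
    have hest : ∀ x ∈ S (i, k, p), ∃ x' ∈ W, Adj Z (x, x') ∧ a ^ k * (x - R) ≤ 2 ^ i * p.1 ∧
        2 ^ i * p.1 < a ^ k * (x' + R) := by
      intro x hx
      rw [hS, mem_filter] at hx
      obtain ⟨hxV, x', hx'W, hadj, hge, hw, hk, h1, h2⟩ := hx
      simp only at hge hw hk h1 h2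
      refine ⟨x', hx'W, hadj, ?_⟩
      have hxW := (mem_filter.1 hxV).1
      have hxX := (mem_filter.1 hxW).2
      have e1 := iter_eq hao hb x i
      have e2 := iter_eq hao hb x' i
      rw [← hw] at e2
      rw [hk] at e1 e2
      have hc0 : 0 ≤ cst a (word a b x i) := cst_nonneg ha _
      set c := cst a (word a b x i) with hc
      have hak : 0 < a ^ k := by positivity
      have h3 : 2 * y * c ≤ i * a ^ k * x := by
        have := cst_small ha hao hb hy0 i (by
          have : (i : ℤ) ≤ n := by omega
          nlinarith) hge (by omega)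
        rwa [hk] at this
      have h4 : c ≤ 2 ^ s * n * a ^ k := by
        have h5 : (i : ℤ) * a ^ k * x ≤ n * a ^ k * (2 * X) := by
          have hin : (i : ℤ) ≤ n := by omega
          have : (0 : ℤ) ≤ i := by positivity
          apply mul_le_mul (mul_le_mul_of_nonneg_right hin hak.le) (by omega) (by omega) (by positivity)
        have h6 : 2 * y * c ≤ 2 * y * (2 ^ s * n * a ^ k) := by
          calc 2 * y * c ≤ n * a ^ k * (2 * X) := h3.trans h5
            _ = 2 * y * (2 ^ s * n * a ^ k) := by rw [hX]; ring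
        exact le_of_mul_le_mul_left h6 (by linarith)
      have h7 : |b * c| ≤ a ^ k * R := by
        rw [abs_mul, abs_of_nonneg hc0, hR]
        calc |b| * c ≤ |b| * (2 ^ s * n * a ^ k) := mul_le_mul_of_nonneg_left h4 (abs_nonneg b)
          _ = a ^ k * (2 ^ s * n * |b|) := by ring
      obtain ⟨h8, h9⟩ := abs_le.1 h7
      have h2i : (0 : ℤ) < 2 ^ i := by positivity
      constructor
      · have := mul_le_mul_of_nonneg_left h1 h2i.le
        rw [e1] at this
        linarith
      · have h10 : p.1 < (T a b)^[i] x' := by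
          exact lt_of_lt_of_le hp.2.2.1 h2
        have := mul_lt_mul_of_pos_left h10 h2i
        rw [e2] at this
        linarith
    obtain ⟨m1, hm1W, hadj1, -, hm1⟩ := hest m0 hm0S
    have hsub : (S (i, k, p)).erase m0 ⊆ Finset.Ico m1 (m1 + 2 * R) := by
      intro x hx
      have hxS := mem_of_mem_erase hx
      have hxm : m0 < x := lt_of_le_of_ne (min'_le _ _ hxS) (Ne.symm (ne_of_mem_erase hx))
      obtain ⟨x', -, -, h1, -⟩ := hest x hxS
      rw [Finset.mem_Ico]
      constructor
      · by_contra hcon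
        push Not at hcon
        have hxZ : x ∈ Z := by
          rw [hS, mem_filter] at hxS
          exact (mem_filter.1 (mem_filter.1 hxS.1).1).1
        exact hadj1.2 x hxZ ⟨hxm, hcon⟩
      · have h2 := h1.trans_lt hm1
        have h3 := lt_of_mul_lt_mul_left h2 (by positivity)
        linarith
    have h1 := card_le_card hsub
    rw [card_erase_of_mem hm0S, Int.card_Ico] at h1
    have h2 : (m1 + 2 * R - m1).toNat = 2 ^ (s + 1) * n * b.natAbs := by
      have : m1 + 2 * R - m1 = ((2 ^ (s + 1) * n * b.natAbs : ℕ) : ℤ) := by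
        push_cast
        rw [hR, pow_succ]
        ring
      rw [this, Int.toNat_natCast]
    omega
  have hFc : ∀ i ∈ range n, (F i).card ≤ (Z.filter fun z => y ≤ 2 * z ∧ z < y).card := by
    intro i _
    apply card_le_card_of_injOn ((T a b)^[i])
    · intro x hx
      rw [mem_coe, hF, mem_filter] at hx
      have hxZ : x ∈ Z := (mem_filter.1 (mem_filter.1 hx.1).1).1
      rw [mem_coe, mem_filter]
      exact ⟨hiter x hxZ i, hx.2⟩
    · intro x hx z hz h
      rw [mem_coe, hF, mem_filter] at hx hz
      exact hiinj i (mem_filter.1 (mem_filter.1 hx.1).1).1 (mem_filter.1 (mem_filter.1 hz.1).1).1 h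
  have hV1 : V.card ≤ n * (n + 1) * (chg Z).card * (2 ^ (s + 1) * n * b.natAbs + 1) +
      n * (Z.filter fun z => y ≤ 2 * z ∧ z < y).card := by
    refine (card_le_card hcover).trans ((card_union_le _ _).trans ?_)
    apply add_le_add
    · refine card_biUnion_le.trans ((sum_le_sum hSc).trans ?_)
      rw [sum_const, card_product, card_product, card_range, card_range, smul_eq_mul]
      apply le_of_eq
      ring
    · refine card_biUnion_le.trans ((sum_le_sum hFc).trans ?_)
      rw [sum_const, card_range, smul_eq_mul]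
  omega

end Pool.Agent.V5helper2.PC
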