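import Mathlib
import Pool.Agent.V5helper2.PC.Level

set_option autoImplicit false

/-!
The largest element of a cycle in terms of the number of parity changes.
-/

namespace Pool.Agent.V5helper2.PC

open Finset Pool.Agent.H944.BX

variable {a b : ℤ}

/-- `Z` is a cycle of `T_{a,b}`. -/
structure Cyc (a b : ℤ) (Z : Finset ℤ) : Prop where
  clos : ∀ z ∈ Z, T a b z ∈ Z
  inj : Set.InjOn (T a b) Z
  reach : ∀ x ∈ Z, ∀ z ∈ Z, ∃ j, (T a b)^[j] x = z

theorem cyc_of {x : ℤ} {p : ℕ} (hp : 1 ≤ p) (hx : (T a b)^[p] x = x) :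
    Cyc a b ((range p).image fun i => (T a b)^[i] x) := by
  classical
  have hmem : ∀ j, (T a b)^[j] x ∈ (range p).image fun i => (T a b)^[i] x := by
    intro j
    rw [mem_image]
    refine ⟨j % p, mem_range.2 (Nat.mod_lt _ hp), ?_⟩
    exact Function.IsPeriodicPt.iterate_mod_apply (f := T a b) (x := x) (n := p) hx j
  refine ⟨?_, ?_, ?_⟩
  · intro z hz
    obtain ⟨i, -, rfl⟩ := mem_image.1 hz
    have h := hmem (i + 1)
    rw [Function.iterate_succ_apply'] at h
    exact h
  · intro u hu v hv h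
    obtain ⟨i, hi, rfl⟩ := mem_image.1 (mem_coe.1 hu)
    obtain ⟨j, hj, rfl⟩ := mem_image.1 (mem_coe.1 hv)
    replace h : T a b ((T a b)^[i] x) = T a b ((T a b)^[j] x) := h
    show (T a b)^[i] x = (T a b)^[j] x
    rw [← Function.iterate_succ_apply' (T a b), ← Function.iterate_succ_apply' (T a b)] at h
    have h1 := congrArg ((T a b)^[p - 1]) h
    rw [← Function.iterate_add_apply, ← Function.iterate_add_apply] at h1
    rw [show p - 1 + (i + 1) = i + p by omega, show p - 1 + (j + 1) = j + p by omega,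
      Function.iterate_add_apply, Function.iterate_add_apply, hx] at h1
    exact h1
  · intro u hu v hv
    obtain ⟨i, hi, rfl⟩ := mem_image.1 hu
    obtain ⟨j, hj, rfl⟩ := mem_image.1 hv
    rw [mem_range] at hi
    refine ⟨j + (p - i), ?_⟩
    show (T a b)^[j + (p - i)] ((T a b)^[i] x) = (T a b)^[j] x
    rw [← Function.iterate_add_apply, show j + (p - i) + i = j + p by omega, Function.iterate_add_apply, hx]

theorem up {Z : Finset ℤ} (hZ : Cyc a b Z) {x z y : ℤ} (hx : x ∈ Z) (hz : z ∈ Z) (hxy : x ≤ y)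
    (hyz : y < z) : ∃ w ∈ Z, w ≤ y ∧ y < T a b w := by
  obtain ⟨j, hj⟩ := hZ.reach x hx z hz
  induction j generalizing x with
  | zero => simp only [Function.iterate_zero_apply] at hj; omega
  | succ j ih =>
    rw [Function.iterate_succ_apply] at hj
    by_cases h : y < T a b x
    · exact ⟨x, hx, hxy, h⟩
    · exact ih (hZ.clos x hx) (by omega) hj

theorem down {Z : Finset ℤ} (hZ : Cyc a b Z) {x z y : ℤ} (hx : x ∈ Z) (hz : z ∈ Z) (hxy : y < x)
    (hyz : z ≤ y) : ∃ w ∈ Z, y < w ∧ T a b w ≤ y := by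
  obtain ⟨j, hj⟩ := hZ.reach x hx z hz
  induction j generalizing x with
  | zero => simp only [Function.iterate_zero_apply] at hj; omega
  | succ j ih =>
    rw [Function.iterate_succ_apply] at hj
    by_cases h : T a b x ≤ y
    · exact ⟨x, hx, hxy, h⟩
    · exact ih (hZ.clos x hx) (by omega) hj

theorem window (ha : 3 ≤ a) (hao : a % 2 = 1) (hb : b % 2 = 1) {Z : Finset ℤ} (hZ : Cyc a b Z) {x z y : ℤ}
    (hx : x ∈ Z) (hz : z ∈ Z) (hy : |b| ≤ y) (hxy : x ≤ y) (hyz : y * ((a + 1) / 2) < z) :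
    ∃ p ∈ chg Z, y < p.1 ∧ p.2 ≤ y * ((a + 1) / 2) := by
  obtain ⟨g, hg⟩ : ∃ g, g = (a + 1) / 2 := ⟨_, rfl⟩
  rw [← hg] at hyz ⊢
  have hg2 : 2 * g = a + 1 := by omega
  have hg3 : 2 ≤ g := by omega
  have hb1 : 1 ≤ |b| := Int.one_le_abs (by rintro rfl; norm_num at hb)
  have hb2 := le_abs_self b
  have hb3 := neg_abs_le b
  have hyg : 2 * y ≤ y * g := by nlinarith
  -- an even element
  obtain ⟨e, he, he1, he2⟩ := down hZ hz hx (y := y) (by omega) hxy
  have hev : e % 2 = 0 ∧ e ≤ 2 * y := by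
    rcases Int.emod_two_eq_zero_or_one e with h5 | h5
    · have := two_mul_T_even (a := a) (b := b) (x := e) (by omega)
      exact ⟨h5, by omega⟩
    · exfalso
      have h6 := two_mul_T_odd hao hb h5
      nlinarith
  -- an odd element
  obtain ⟨o, ho, ho1, ho2⟩ := up hZ hx hz (y := y * g) (by nlinarith) hyz
  have hod : o % 2 = 1 ∧ y < o := by
    rcases Int.emod_two_eq_zero_or_one o with h5 | h5
    · exfalso
      have := two_mul_T_even (a := a) (b := b) (x := o) (by omega)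
      omega
    · have h6 := two_mul_T_odd hao hb h5
      refine ⟨h5, ?_⟩
      by_contra hcon
      push Not at hcon
      have h7 : a * o ≤ a * y := mul_le_mul_of_nonneg_left hcon (by linarith)
      have h8 : 2 * (y * g) = y * a + y := by
        calc 2 * (y * g) = y * (2 * g) := by ring
          _ = y * a + y := by rw [hg2]; ring
      nlinarith
  rcases lt_trichotomy e o with h | h | h
  · obtain ⟨p, hp, h1, h2⟩ := exists_chg' he ho h (by omega)
    exact ⟨p, hp, by omega, by omega⟩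
  · omega
  · obtain ⟨p, hp, h1, h2⟩ := exists_chg' ho he h (by omega)
    exact ⟨p, hp, by omega, by omega⟩

theorem windows (ha : 3 ≤ a) (hao : a % 2 = 1) (hb : b % 2 = 1) {Z : Finset ℤ} (hZ : Cyc a b Z) {x c : ℤ}
    (hx : x ∈ Z) (hc : |b| ≤ c) (hxc : x ≤ c) (m : ℕ) (hM : ∃ z ∈ Z, c * ((a + 1) / 2) ^ m < z) :
    m ≤ ((chg Z).filter fun p => p.2 ≤ c * ((a + 1) / 2) ^ m).card := by
  classical
  obtain ⟨g, hg⟩ : ∃ g, g = (a + 1) / 2 := ⟨_, rfl⟩
  have hg3 : 2 ≤ g := by omega
  have hb1 : 1 ≤ |b| := Int.one_le_abs (by rintro rfl; norm_num at hb)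
  induction m with
  | zero => exact Nat.zero_le _
  | succ m ih =>
    obtain ⟨z, hz, hz1⟩ := hM
    rw [← hg] at ih hz1 ⊢
    have hgm : 1 ≤ g ^ m := one_le_pow₀ (by omega)
    have hcg : c ≤ c * g ^ m := le_mul_of_one_le_right (by omega) hgm
    have e : c * g ^ (m + 1) = c * g ^ m * g := by rw [pow_succ]; ring
    have hle : c * g ^ m ≤ c * g ^ (m + 1) := by rw [e]; nlinarith
    have h1 := ih ⟨z, hz, by omega⟩
    obtain ⟨p, hp, hp1, hp2⟩ := window ha hao hb hZ hx hz (y := c * g ^ m) (by omega) (by omega)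
      (by rw [← hg, ← e]; exact hz1)
    rw [← hg, ← e] at hp2
    have hsub : insert p ((chg Z).filter fun p => p.2 ≤ c * g ^ m) ⊆
        (chg Z).filter fun p => p.2 ≤ c * g ^ (m + 1) := by
      intro q hq
      rw [mem_insert] at hq
      rw [mem_filter]
      rcases hq with rfl | hq
      · exact ⟨hp, hp2⟩
      · rw [mem_filter] at hq
        exact ⟨hq.1, hq.2.trans hle⟩
    have hnot : p ∉ (chg Z).filter fun p => p.2 ≤ c * g ^ m := by
      rw [mem_filter]
      rintro ⟨-, h⟩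
      have := (mem_chg.1 hp).2.2.1
      omega
    have h2 := card_le_card hsub
    rw [card_insert_of_notMem hnot] at h2
    omega

/-- The size of the largest element. -/
theorem max_le (ha : 3 ≤ a) (hao : a % 2 = 1) (hb : b % 2 = 1) {Z : Finset ℤ} (hZ : Cyc a b Z) {x c : ℤ}
    (hx : x ∈ Z) (hc : |b| ≤ c) (hxc : x ≤ c) {z : ℤ} (hz : z ∈ Z) :
    z ≤ c * ((a + 1) / 2) ^ ((chg Z).card + 1) := by
  by_contra hcon
  push Not at hcon
  have h1 := windows ha hao hb hZ hx hc hxc ((chg Z).card + 1) ⟨z, hz, hcon⟩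
  have h2 := card_filter_le (chg Z) (fun p => p.2 ≤ c * ((a + 1) / 2) ^ ((chg Z).card + 1))
  omega

/-! ### reflection -/

theorem T_neg (x : ℤ) (hao : a % 2 = 1) (hb : b % 2 = 1) : T a (-b) (-x) = -(T a b x) := by
  rcases Int.emod_two_eq_zero_or_one x with h | h
  · have h1 := two_mul_T_even (a := a) (b := b) (x := x) (by omega)
    have h2 := two_mul_T_even (a := a) (b := -b) (x := -x) (by omega)
    omega
  · have h1 := two_mul_T_odd hao hb h
    have h2 := two_mul_T_odd hao (b := -b) (by omega) (x := -x) (by omega)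
    have : a * -x = -(a * x) := by ring
    omega

theorem T_neg_iter (x : ℤ) (hao : a % 2 = 1) (hb : b % 2 = 1) (j : ℕ) :
    (T a (-b))^[j] (-x) = -((T a b)^[j] x) := by
  induction j with
  | zero => rfl
  | succ j ih => rw [Function.iterate_succ_apply', Function.iterate_succ_apply', ih, T_neg _ hao hb]

/-- the set of the negatives -/
def nn (Z : Finset ℤ) : Finset ℤ := Z.map (Equiv.neg ℤ).toEmbedding

theorem mem_nn {Z : Finset ℤ} {x : ℤ} : x ∈ nn Z ↔ -x ∈ Z := by
  unfold nn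
  rw [mem_map]
  constructor
  · rintro ⟨z, hz, rfl⟩
    simpa using hz
  · intro h
    exact ⟨-x, h, by simp⟩

theorem Cyc.neg {Z : Finset ℤ} (hZ : Cyc a b Z) (hao : a % 2 = 1) (hb : b % 2 = 1) :
    Cyc a (-b) (nn Z) := by
  refine ⟨?_, ?_, ?_⟩
  · intro z hz
    rw [mem_nn] at hz ⊢
    have := T_neg (-z) hao hb
    rw [neg_neg] at this
    rw [this, neg_neg]
    exact hZ.clos _ hz
  · intro u hu v hv h
    have h1 := mem_nn.1 (mem_coe.1 hu)
    have h2 := mem_nn.1 (mem_coe.1 hv)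
    have e1 := T_neg (-u) hao hb
    have e2 := T_neg (-v) hao hb
    rw [neg_neg] at e1 e2
    rw [e1, e2, neg_inj] at h
    have := hZ.inj h1 h2 h
    omega
  · intro u hu v hv
    rw [mem_nn] at hu hv
    obtain ⟨j, hj⟩ := hZ.reach _ hu _ hv
    refine ⟨j, ?_⟩
    have e1 := T_neg_iter (-u) hao hb j
    rw [neg_neg] at e1
    rw [e1, hj, neg_neg]

theorem chg_nn (Z : Finset ℤ) : (chg (nn Z)).card = (chg Z).card := by
  classical
  refine card_bij' (fun p _ => (-p.2, -p.1)) (fun p _ => (-p.2, -p.1)) ?_ ?_ ?_ ?_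
  · intro p hp
    rw [mem_chg] at hp ⊢
    obtain ⟨h1, h2, h3, h4, h5⟩ := hp
    rw [mem_nn] at h1 h2
    refine ⟨h2, h1, by simp only; omega, ?_, by simp only; omega⟩
    intro z hz hc
    simp only at hc
    exact h4 (-z) (by rw [mem_nn, neg_neg]; exact hz) ⟨by omega, by omega⟩
  · intro p hp
    rw [mem_chg] at hp ⊢
    obtain ⟨h1, h2, h3, h4, h5⟩ := hp
    refine ⟨by rw [mem_nn]; simpa using h2, by rw [mem_nn]; simpa using h1, by simp only; omega, ?_,
      by simp only; omega⟩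
    intro z hz hc
    rw [mem_nn] at hz
    simp only at hc
    exact h4 (-z) hz ⟨by omega, by omega⟩
  · intro p _; simp
  · intro p _; simp

theorem card_nn (Z : Finset ℤ) : (nn Z).card = Z.card := card_map _

/-- The largest absolute value. -/
theorem abs_le_of (ha : 3 ≤ a) (hao : a % 2 = 1) (hb : b % 2 = 1) {Z : Finset ℤ} (hZ : Cyc a b Z) {x c : ℤ}
    (hx : x ∈ Z) (hc : |b| ≤ c) (hxc : |x| ≤ c) {z : ℤ} (hz : z ∈ Z) :
    |z| ≤ c * ((a + 1) / 2) ^ ((chg Z).card + 1) := by
  have h1 := max_le ha hao hb hZ hx hc ((le_abs_self x).trans hxc) hz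
  have h2 := max_le ha hao (b := -b) (by omega) (hZ.neg hao hb) (x := -x) (c := c)
    (by rw [mem_nn, neg_neg]; exact hx) (by rw [abs_neg]; exact hc) ((neg_le_abs x).trans hxc) (z := -z)
    (by rw [mem_nn, neg_neg]; exact hz)
  rw [chg_nn] at h2
  rw [abs_le]
  constructor <;> linarith

end Pool.Agent.V5helper2.PC
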