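import Mathlib
import Pool.Agent.V5helper2.PC.Cross

set_option autoImplicit false

/-!
The number of the elements of a cycle in an interval, in terms of shorter intervals.
-/

namespace Pool.Agent.V5helper2.PC

open Finset Pool.Agent.H944.BX

variable {a b : ℤ}

/-- **The local lemma.** -/
theorem local_level (ha : 3 ≤ a) (hao : a % 2 = 1) (hb : b % 2 = 1) {Z : Finset ℤ}
    (hT : ∀ z ∈ Z, T a b z ∈ Z) (hinj : Set.InjOn (T a b) Z) {n D P Q : ℕ} {y u R E : ℤ}
    (hy : n * |b| ≤ y) (hy0 : 0 < y) (hyu : y ≤ u) (hR : 0 < R) (hRu : R ≤ u) (hD : u ≤ D * y)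
    (hE : 2 * y * R ≤ E * u) (hn : ∀ x ∈ Z, ∀ x' ∈ Z, x' - x < 2 ^ n)
    (hP : ∀ v, u ≤ v → (Z.filter fun x => v ≤ x ∧ x < v + 2 * (n * D * |b|)).card ≤ P)
    (hQ : ∀ v, y ≤ 2 * v → (Z.filter fun x => v ≤ x ∧ x < v + (E + n * |b|) ∧ x < y).card ≤ Q) :
    (Z.filter fun x => u ≤ x ∧ x < u + R).card ≤
      1 + n * (n + 1) * (chg Z).card * (P + 1) + n * (n + 1) * Q := by
  classical
  have hb1 : 1 ≤ |b| := Int.one_le_abs (by rintro rfl; norm_num at hb)
  have hiter : ∀ z ∈ Z, ∀ i, (T a b)^[i] z ∈ Z := by
    intro z hz i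
    induction i with
    | zero => exact hz
    | succ i ih => rw [Function.iterate_succ_apply']; exact hT _ ih
  have hiinj : ∀ i, Set.InjOn ((T a b)^[i]) Z := by
    intro i
    induction i with
    | zero => intro x _ y _ h; exact h
    | succ i ih =>
      intro x hx z hz h
      rw [Function.iterate_succ_apply', Function.iterate_succ_apply'] at h
      exact ih hx hz (hinj (hiter x hx i) (hiter z hz i) h)
  have hu0 : 0 < u := by omega
  set W := Z.filter fun x => u ≤ x ∧ x < u + R with hW
  set V := W.filter fun x => ∃ x' ∈ W, Adj Z (x, x') with hV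
  -- all elements of `W` but the largest are in `V`
  have hWV : W.card ≤ 1 + V.card := by
    rcases W.eq_empty_or_nonempty with h | h
    · rw [h]; simp
    · set M := W.max' h with hM
      have hsub : W.erase M ⊆ V := by
        intro x hx
        have hxW := mem_of_mem_erase hx
        have hxM : x < M := lt_of_le_of_ne (le_max' _ _ hxW) (ne_of_mem_erase hx)
        rw [hV, mem_filter]
        refine ⟨hxW, ?_⟩
        have hne : (W.filter fun z => x < z).Nonempty := ⟨M, mem_filter.2 ⟨max'_mem _ _, hxM⟩⟩
        set x' := (W.filter fun z => x < z).min' hne with hx'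
        have hx'mem := min'_mem _ hne
        rw [← hx', mem_filter] at hx'mem
        refine ⟨x', hx'mem.1, hx'mem.2, ?_⟩
        rintro z hz ⟨h1, h2⟩
        simp only at h1 h2
        have hzW : z ∈ W := by
          rw [hW, mem_filter]
          have h3 := (mem_filter.1 hxW).2
          have h4 := (mem_filter.1 hx'mem.1).2
          exact ⟨hz, by omega, by omega⟩
        have h5 := min'_le _ z (mem_filter.2 ⟨hzW, h1⟩)
        rw [← hx'] at h5
        omega
      have h1 := card_le_card hsub
      have h2 := card_erase_of_mem (max'_mem W h)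
      rw [← hM] at h2
      omega
  -- the two kinds of pairs
  set S : ℕ × ℕ × (ℤ × ℤ) → Finset ℤ := fun q => V.filter fun x => ∃ x' ∈ W, Adj Z (x, x') ∧
    (∀ t < q.1, y ≤ (T a b)^[t] x) ∧ word a b x q.1 = word a b x' q.1 ∧
    (word a b x q.1).count true = q.2.1 ∧ (T a b)^[q.1] x ≤ q.2.2.1 ∧ q.2.2.2 ≤ (T a b)^[q.1] x' with hS
  set F : ℕ × ℕ → Finset ℤ := fun q => V.filter fun x => y ≤ 2 * (T a b)^[q.1] x ∧ (T a b)^[q.1] x < y ∧
    (∀ t < q.1, y ≤ (T a b)^[t] x) ∧ (word a b x q.1).count true = q.2 with hF
  have hcover : V ⊆ ((range n ×ˢ (range (n + 1) ×ˢ chg Z)).biUnion S) ∪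
      (range n ×ˢ range (n + 1)).biUnion F := by
    intro x hxV
    have hxW := (mem_filter.1 hxV).1
    obtain ⟨x', hx'W, hadj⟩ := (mem_filter.1 hxV).2
    have hxZ := (mem_filter.1 hxW).1
    have hx'Z := (mem_filter.1 hx'W).1
    have hlt : x < x' := hadj.1
    -- separation
    have hsep : ∃ i, i < n ∧ (T a b)^[i] x % 2 ≠ (T a b)^[i] x' % 2 := by
      by_contra hcon
      push Not at hcon
      have h1 := dvd_diff hao hb (word_congr hcon)
      have h2 := Int.le_of_dvd (by omega) h1
      have h3 := hn x hxZ x' hx'Z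
      omega
    obtain ⟨hi1, hi2⟩ := Nat.find_spec hsep
    set i := Nat.find hsep with hi
    have hlow : ∀ t < i, (T a b)^[t] x % 2 = (T a b)^[t] x' % 2 := by
      intro t ht
      by_contra hcon
      exact Nat.find_min hsep ht ⟨by omega, hcon⟩
    have hw := word_congr hlow
    rw [mem_union]
    by_cases hfall : ∃ t, t < i ∧ (T a b)^[t] x < y
    · right
      obtain ⟨ht1, ht2⟩ := Nat.find_spec hfall
      set t := Nat.find hfall with ht
      have hprev : ∀ r < t, y ≤ (T a b)^[r] x := by
        intro r hr
        by_contra hcon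
        exact Nat.find_min hfall hr ⟨by omega, by omega⟩
      rw [mem_biUnion]
      refine ⟨(t, (word a b x t).count true), ?_, ?_⟩
      · rw [mem_product]
        refine ⟨mem_range.2 (by show t < n; omega), mem_range.2 ?_⟩
        have := List.count_le_length (a := true) (l := word a b x t)
        rw [word_length] at this
        show (word a b x t).count true < n + 1
        omega
      rw [hF, mem_filter]
      refine ⟨hxV, ?_, ht2, hprev, rfl⟩
      show y ≤ 2 * (T a b)^[t] x
      obtain ⟨r, hr⟩ : ∃ r, t = r + 1 := by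
        rcases Nat.eq_zero_or_pos t with h0 | h0
        · rw [h0] at ht2
          have h3 := (mem_filter.1 hxW).2.1
          simp only [Function.iterate_zero_apply] at ht2
          omega
        · exact ⟨t - 1, by omega⟩
      have h4 := hprev r (by omega)
      rw [hr, Function.iterate_succ_apply'] at ht2 ⊢
      rcases Int.emod_two_eq_zero_or_one ((T a b)^[r] x) with h5 | h5
      · have := two_mul_T_even (a := a) (b := b) (x := (T a b)^[r] x) (by omega)
        omega
      · exfalso
        have h6 := two_mul_T_odd hao hb h5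
        have h7 : |b| ≤ y := by
          have : (1 : ℤ) ≤ n := by omega
          nlinarith
        have h8 : -|b| ≤ b := neg_abs_le b
        nlinarith
    · left
      push Not at hfall
      rw [mem_biUnion]
      -- the change of parity
      have hlt' : (T a b)^[i] x < (T a b)^[i] x' := by
        have h1 := diff_eq hao hb hw
        have h2 : 0 < a ^ ((word a b x i).count true) * (x' - x) :=
          mul_pos (by positivity) (by omega)
        rw [← h1] at h2
        have := (mul_pos_iff_of_pos_left (show (0 : ℤ) < 2 ^ i by positivity)).1 h2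
        omega
      obtain ⟨p, hp, hp1, hp2⟩ := exists_chg' (hiter x hxZ i) (hiter x' hx'Z i) hlt' hi2
      refine ⟨(i, (word a b x i).count true, p), ?_, ?_⟩
      · rw [mem_product, mem_product]
        refine ⟨mem_range.2 hi1, mem_range.2 ?_, hp⟩
        have := List.count_le_length (a := true) (l := word a b x i)
        rw [word_length] at this
        show (word a b x i).count true < n + 1
        omega
      · rw [hS, mem_filter]
        exact ⟨hxV, x', hx'W, hadj, hfall, hw, rfl, hp1, hp2⟩
  -- the cardinalities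
  have hSc : ∀ q ∈ range n ×ˢ (range (n + 1) ×ˢ chg Z), (S q).card ≤ P + 1 := by
    rintro ⟨i, k, p⟩ hq
    rw [mem_product, mem_product] at hq
    obtain ⟨hi, -, hp⟩ := hq
    rw [mem_range] at hi
    simp only at hi
    rw [mem_chg] at hp
    rcases (S (i, k, p)).eq_empty_or_nonempty with h | h
    · rw [h]; simp
    set m0 := (S (i, k, p)).min' h with hm0
    have hm0S : m0 ∈ S (i, k, p) := min'_mem _ _
    set R' : ℤ := n * D * |b| with hR'
    have hest : ∀ x ∈ S (i, k, p), ∃ x' ∈ W, Adj Z (x, x') ∧ a ^ k * (x - R') ≤ 2 ^ i * p.1 ∧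
        2 ^ i * p.1 < a ^ k * (x' + R') := by
      intro x hx
      rw [hS, mem_filter] at hx
      obtain ⟨hxV, x', hx'W, hadj, hge, hw, hk, h1, h2⟩ := hx
      simp only at hge hw hk h1 h2
      refine ⟨x', hx'W, hadj, ?_⟩
      have hxW := (mem_filter.1 hxV).1
      have hxX := (mem_filter.1 hxW).2
      have e1 := iter_eq hao hb x i
      have e2 := iter_eq hao hb x' i
      rw [← hw] at e2
      rw [hk] at e1 e2
      have hc0 : 0 ≤ cst a (word a b x i) := cst_nonneg ha _
      set c := cst a (word a b x i) with hc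
      have hak : 0 < a ^ k := by positivity
      have h3 : 2 * y * c ≤ i * a ^ k * x := by
        have := cst_small ha hao hb hy0 i (by
          have : (i : ℤ) ≤ n := by omega
          nlinarith) hge (by omega)
        rwa [hk] at this
      have h4 : c ≤ n * D * a ^ k := by
        have h5 : (i : ℤ) * a ^ k * x ≤ n * a ^ k * (2 * (D * y)) := by
          have hin : (i : ℤ) ≤ n := by omega
          have : (0 : ℤ) ≤ i := by positivity
          apply mul_le_mul (mul_le_mul_of_nonneg_right hin hak.le) (by omega) (by omega) (by positivity)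
        have h6 : 2 * y * c ≤ 2 * y * (n * D * a ^ k) := by
          calc 2 * y * c ≤ n * a ^ k * (2 * (D * y)) := h3.trans h5
            _ = 2 * y * (n * D * a ^ k) := by ring
        exact le_of_mul_le_mul_left h6 (by linarith)
      have h7 : |b * c| ≤ a ^ k * R' := by
        rw [abs_mul, abs_of_nonneg hc0, hR']
        calc |b| * c ≤ |b| * (n * D * a ^ k) := mul_le_mul_of_nonneg_left h4 (abs_nonneg b)
          _ = a ^ k * (n * D * |b|) := by ring
      obtain ⟨h8, h9⟩ := abs_le.1 h7
      have h2i : (0 : ℤ) < 2 ^ i := by positivity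
      constructor
      · have := mul_le_mul_of_nonneg_left h1 h2i.le
        rw [e1] at this
        linarith
      · have h10 : p.1 < (T a b)^[i] x' := by
          exact lt_of_lt_of_le hp.2.2.1 h2
        have := mul_lt_mul_of_pos_left h10 h2i
        rw [e2] at this
        linarith
    obtain ⟨m1, hm1W, hadj1, -, hm1⟩ := hest m0 hm0S
    have hsub : (S (i, k, p)).erase m0 ⊆ Z.filter fun x => m1 ≤ x ∧ x < m1 + 2 * (n * D * |b|) := by
      intro x hx
      have hxS := mem_of_mem_erase hx
      have hxm : m0 < x := lt_of_le_of_ne (min'_le _ _ hxS) (Ne.symm (ne_of_mem_erase hx))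
      obtain ⟨x', -, -, h1, -⟩ := hest x hxS
      have hxZ : x ∈ Z := by
        rw [hS, mem_filter] at hxS
        exact (mem_filter.1 (mem_filter.1 hxS.1).1).1
      rw [mem_filter]
      refine ⟨hxZ, ?_, ?_⟩
      · by_contra hcon
        push Not at hcon
        exact hadj1.2 x hxZ ⟨hxm, hcon⟩
      · have h2 := h1.trans_lt hm1
        have h3 := lt_of_mul_lt_mul_left h2 (by positivity)
        linarith
    have h1 := (card_le_card hsub).trans (hP m1 (mem_filter.1 hm1W).2.1)
    rw [card_erase_of_mem hm0S] at h1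
    omega
  have hFc : ∀ q ∈ range n ×ˢ range (n + 1), (F q).card ≤ Q := by
    rintro ⟨t, k⟩ hq
    rw [mem_product] at hq
    obtain ⟨ht, -⟩ := hq
    rw [mem_range] at ht
    simp only at ht
    rcases (F (t, k)).eq_empty_or_nonempty with h | h
    · rw [h]; simp
    set G := (F (t, k)).image ((T a b)^[t]) with hG
    have hGne : G.Nonempty := h.image _
    set v := G.min' hGne with hv
    have hFmem : ∀ x ∈ F (t, k), x ∈ Z ∧ u ≤ x ∧ x < u + R ∧ y ≤ 2 * (T a b)^[t] x ∧ (T a b)^[t] x < y ∧
        a ^ k * x < 2 ^ (t + 1) * y ∧ |b * cst a (word a b x t)| ≤ 2 ^ t * (n * |b|) ∧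
        2 ^ t * (T a b)^[t] x = a ^ k * x + b * cst a (word a b x t) := by
      intro x hx
      rw [hF, mem_filter] at hx
      obtain ⟨hxV, h1, h2, h3, h4⟩ := hx
      simp only at h1 h2 h3 h4
      have hxW := (mem_filter.1 hxV).1
      have hxZ := (mem_filter.1 hxW).1
      have hxX := (mem_filter.1 hxW).2
      have e1 := iter_eq hao hb x t
      rw [h4] at e1
      have hc0 : 0 ≤ cst a (word a b x t) := cst_nonneg ha _
      have htb : (t : ℤ) * |b| ≤ n * |b| := by
        have : (t : ℤ) ≤ n := by omega
        nlinarith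
      have h5 : 2 * y * cst a (word a b x t) ≤ t * a ^ k * x := by
        have := cst_small ha hao hb hy0 t (htb.trans hy) h3 (by omega)
        rwa [h4] at this
      set c := cst a (word a b x t) with hc
      have hak : 0 < a ^ k := by positivity
      have hax : 0 < a ^ k * x := mul_pos hak (by omega)
      have h6 : 2 * (|b| * c) ≤ a ^ k * x := by
        have h7 : y * (2 * (|b| * c)) ≤ y * (a ^ k * x) := by
          calc y * (2 * (|b| * c)) = |b| * (2 * y * c) := by ring
            _ ≤ |b| * (t * a ^ k * x) := mul_le_mul_of_nonneg_left h5 (abs_nonneg b)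
            _ = (t * |b|) * (a ^ k * x) := by ring
            _ ≤ y * (a ^ k * x) := mul_le_mul_of_nonneg_right (htb.trans hy) hax.le
        exact le_of_mul_le_mul_left h7 hy0
      have h8 : -(|b| * c) ≤ b * c := by
        have := neg_abs_le b
        nlinarith
      have h2t : (0 : ℤ) < 2 ^ t := by positivity
      have h9 : a ^ k * x < 2 ^ (t + 1) * y := by
        have h10 : 2 ^ t * (T a b)^[t] x < 2 ^ t * y := mul_lt_mul_of_pos_left h2 h2t
        rw [pow_succ]
        linarith
      have h10 : |b * c| ≤ 2 ^ t * (n * |b|) := by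
        rw [abs_mul, abs_of_nonneg hc0]
        have h11 : y * (|b| * c) ≤ y * (2 ^ t * (n * |b|)) := by
          have h12 : 2 * (y * (|b| * c)) ≤ 2 * (y * (2 ^ t * (n * |b|))) := by
            calc 2 * (y * (|b| * c)) = |b| * (2 * y * c) := by ring
              _ ≤ |b| * (t * a ^ k * x) := mul_le_mul_of_nonneg_left h5 (abs_nonneg b)
              _ = (t * |b|) * (a ^ k * x) := by ring
              _ ≤ (n * |b|) * (2 ^ (t + 1) * y) := mul_le_mul htb h9.le hax.le (by positivity)
              _ = 2 * (y * (2 ^ t * (n * |b|))) := by rw [pow_succ]; ring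
          linarith
        exact le_of_mul_le_mul_left h11 hy0
      exact ⟨hxZ, hxX.1, hxX.2, h1, h2, h9, h10, e1⟩
    have hcardG : G.card = (F (t, k)).card := by
      rw [hG, card_image_of_injOn]
      intro x hx z hz hxz
      exact hiinj t (hFmem x hx).1 (hFmem z hz).1 hxz
    rw [← hcardG]
    -- the least element of the image
    obtain ⟨x0, hx0, hx0v⟩ := mem_image.1 (min'_mem G hGne)
    rw [← hv] at hx0v
    obtain ⟨-, f1, f2, f3, f4, f5, f6, f7⟩ := hFmem x0 hx0
    rw [hx0v] at f3 f4 f7
    refine le_trans (card_le_card ?_) (hQ v f3)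
    intro g hg
    obtain ⟨x, hx, hxg⟩ := mem_image.1 hg
    obtain ⟨g0, g1, g2, g3, g4, g5, g6, g7⟩ := hFmem x hx
    rw [hxg] at g3 g4 g7
    rw [mem_filter]
    refine ⟨by rw [← hxg]; exact hiter x g0 t, min'_le _ _ hg, ?_, g4⟩
    -- the length of the interval
    have h2t : (0 : ℤ) < 2 ^ t := by positivity
    have hak : 0 < a ^ k := by positivity
    have h1 : a ^ k * (x - x0) < 2 ^ t * E := by
      have h2 : a ^ k * (x - x0) ≤ a ^ k * R := mul_le_mul_of_nonneg_left (by omega) hak.le
      have h3 : a ^ k * u < 2 ^ (t + 1) * y :=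
        lt_of_le_of_lt (mul_le_mul_of_nonneg_left g1 hak.le) g5
      have h4 : (a ^ k * R) * u < (2 ^ t * E) * u := by
        calc (a ^ k * R) * u = (a ^ k * u) * R := by ring
          _ < (2 ^ (t + 1) * y) * R := mul_lt_mul_of_pos_right h3 hR
          _ = 2 ^ t * (2 * y * R) := by rw [pow_succ]; ring
          _ ≤ 2 ^ t * (E * u) := mul_le_mul_of_nonneg_left hE h2t.le
          _ = (2 ^ t * E) * u := by ring
      exact lt_of_le_of_lt h2 (lt_of_mul_lt_mul_right h4 hu0.le)
    have hc1 : 0 ≤ cst a (word a b x t) := cst_nonneg ha _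
    have hc2 : 0 ≤ cst a (word a b x0 t) := cst_nonneg ha _
    have h5 : b * cst a (word a b x t) - b * cst a (word a b x0 t) ≤ 2 ^ t * (n * |b|) := by
      rw [abs_mul, abs_of_nonneg hc1] at g6
      rw [abs_mul, abs_of_nonneg hc2] at f6
      rcases le_total 0 b with hb0 | hb0
      · rw [abs_of_nonneg hb0] at g6 f6 ⊢
        have : 0 ≤ b * cst a (word a b x0 t) := mul_nonneg hb0 hc2
        linarith
      · rw [abs_of_nonpos hb0] at g6 f6 ⊢
        have : b * cst a (word a b x t) ≤ 0 := mul_nonpos_of_nonpos_of_nonneg hb0 hc1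
        linarith
    have h6 : 2 ^ t * (g - v) < 2 ^ t * (E + n * |b|) := by
      have : 2 ^ t * (g - v) = a ^ k * (x - x0) + (b * cst a (word a b x t) - b * cst a (word a b x0 t)) := by
        linear_combination g7 - f7
      rw [this]
      linarith
    have h7 := lt_of_mul_lt_mul_left h6 h2t.le
    linarith
  have hV1 : V.card ≤ n * (n + 1) * (chg Z).card * (P + 1) + n * (n + 1) * Q := by
    refine (card_le_card hcover).trans ((card_union_le _ _).trans ?_)
    apply add_le_add
    · refine card_biUnion_le.trans ((sum_le_sum hSc).trans ?_)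
      rw [sum_const, card_product, card_product, card_range, card_range, smul_eq_mul]
      apply le_of_eq
      ring
    · refine card_biUnion_le.trans ((sum_le_sum hFc).trans ?_)
      rw [sum_const, card_product, card_range, card_range, smul_eq_mul]
  omega

end Pool.Agent.V5helper2.PC
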