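import Mathlib
import Pool.Agent.V5helper2.PC.Rec

set_option autoImplicit false

/-!
The number of the elements of a cycle in terms of the number of parity changes: the final count.
-/

namespace Pool.Agent.V5helper2.PC

open Finset Pool.Agent.H944.BX

variable {a b : ℤ}

/-- **The number of the elements.** Here `A` is the number of parity changes, `(a + 1) / 2 ≤ 2 ^ γ`,
`|b| < 2 ^ β`, and some element has absolute value less than `2 ^ ν`. -/
theorem count2 (ha : 3 ≤ a) (hao : a % 2 = 1) (hb : b % 2 = 1) {Z : Finset ℤ} (hZ : Cyc a b Z)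
    {γ β ν m H : ℕ} (hγ : (a + 1) / 2 ≤ 2 ^ γ) (hβ : b.natAbs < 2 ^ β) {x0 : ℤ} (hx0 : x0 ∈ Z)
    (hν : |x0| < 2 ^ ν) (hH : H = γ * ((chg Z).card + 1)) (hm : m = 2 * (H + β + ν) + 9) (hγ1 : 1 ≤ γ) :
    Z.card ≤ 64 * b.natAbs * m ^ 2 * (9 * m ^ 2 * ((chg Z).card + 1)) ^ (Nat.log 2 m) ∧
      (chg Z).card + 1 ≤ m := by
  classical
  have hb1 : 1 ≤ |b| := Int.one_le_abs (by rintro rfl; norm_num at hb)
  have hbn : (b.natAbs : ℤ) = |b| := by rw [Int.abs_eq_natAbs]
  have hB1 : 1 ≤ b.natAbs := by omega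
  -- the least absolute value
  obtain ⟨x1, hx1, hmin⟩ := exists_min_image Z (fun x => |x|) ⟨x0, hx0⟩
  set N := |x1| with hN
  have hNν : N < 2 ^ ν := (hmin x0 hx0).trans_lt hν
  have hN0 : 0 ≤ N := abs_nonneg _
  set A := (chg Z).card with hA
  set n := 2 * (H + β + ν) + 8 with hnd
  have hmn : m = n + 1 := by omega
  set c : ℤ := max (n * |b|) N with hcd
  have hc1 : n * |b| ≤ c := le_max_left _ _
  have hc2 : N ≤ c := le_max_right _ _
  have hn1 : (8 : ℤ) ≤ n := by rw [hnd]; push_cast; omega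
  have hbc : |b| ≤ c := by nlinarith
  have hc0 : 0 < c := by omega
  have hg : ((a + 1) / 2) ^ (A + 1) ≤ 2 ^ H := by
    rw [hH, pow_mul]
    exact pow_le_pow_left₀ (by omega) hγ _
  have hsize : ∀ z ∈ Z, |z| ≤ c * 2 ^ H := by
    intro z hz
    refine (abs_le_of ha hao hb hZ hx1 hbc hc2 hz).trans ?_
    exact mul_le_mul_of_nonneg_left hg hc0.le
  have hcn : c * 2 ^ (H + 1) ≤ 2 ^ n - 1 := by
    have h1 : N * 2 ^ (H + 1) ≤ 2 ^ n - 1 := by
      have h2 : N + 1 ≤ 2 ^ ν := by omega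
      have h3 : (N + 1) * 2 ^ (H + 1) ≤ 2 ^ ν * 2 ^ (H + 1) := mul_le_mul_of_nonneg_right h2 (by positivity)
      rw [← pow_add] at h3
      have h4 : (2 : ℤ) ^ (ν + (H + 1)) ≤ 2 ^ n := pow_le_pow_right₀ (by norm_num) (by omega)
      have h5 : (1 : ℤ) ≤ 2 ^ (H + 1) := one_le_pow₀ (by norm_num)
      nlinarith
    have h2 : (n * |b|) * 2 ^ (H + 1) ≤ 2 ^ n - 1 := by
      have h3 : |b| + 1 ≤ 2 ^ β := by
        rw [← hbn]
        have : b.natAbs + 1 ≤ 2 ^ β := hβ
        exact_mod_cast this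
      have h4 : (n : ℤ) ≤ 2 ^ (H + β + ν + 3) := by
        have h5 : H + β + ν < 2 ^ (H + β + ν) := Nat.lt_two_pow_self
        have h6 : n ≤ 2 ^ (H + β + ν + 3) := by
          rw [pow_add]
          omega
        exact_mod_cast h6
      have h5 : (n : ℤ) * (|b| + 1) * 2 ^ (H + 1) ≤ 2 ^ (H + β + ν + 3) * 2 ^ β * 2 ^ (H + 1) := by
        apply mul_le_mul_of_nonneg_right _ (by positivity)
        exact mul_le_mul h4 h3 (by omega) (by positivity)
      rw [← pow_add, ← pow_add] at h5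
      have h6 : (2 : ℤ) ^ (H + β + ν + 3 + β + (H + 1)) ≤ 2 ^ n := pow_le_pow_right₀ (by norm_num) (by omega)
      have h7 : (1 : ℤ) ≤ 2 ^ (H + 1) := one_le_pow₀ (by norm_num)
      nlinarith
    rcases le_total (n * |b|) N with h | h
    · rw [hcd, max_eq_right h]; exact h1
    · rw [hcd, max_eq_left h]; exact h2
  have hdiff : ∀ x ∈ Z, ∀ x' ∈ Z, x' - x < 2 ^ n := by
    intro x hx x' hx'
    have h1 := abs_le.1 (hsize x hx)
    have h2 := abs_le.1 (hsize x' hx')
    rw [pow_succ] at hcn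
    linarith
  have hHlt : ∀ z ∈ Z, |z| < 2 ^ (H + 1) * c := by
    intro z hz
    have h1 := hsize z hz
    have h2 : (1 : ℤ) ≤ 2 ^ H := one_le_pow₀ (by norm_num)
    rw [pow_succ]
    nlinarith
  set B := b.natAbs with hB
  -- the parameter `κ`
  obtain ⟨κ, hκd⟩ : ∃ κ, κ = Nat.log 2 (n * B) + 2 := ⟨_, rfl⟩
  have hnB0 : n * B ≠ 0 := by
    have : 1 ≤ n := by omega
    positivity
  have hκ1 : 2 * (n * B) ≤ 2 ^ κ := by
    have h1 := Nat.lt_pow_succ_log_self (b := 2) (by norm_num) (n * B)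
    have h2 : 2 ^ κ = 2 * 2 ^ (Nat.log 2 (n * B) + 1) := by rw [hκd, pow_succ]; ring
    rw [h2]
    exact Nat.mul_le_mul_left _ h1.le
  have hκ2 : 2 ^ (κ + 1) ≤ 8 * (n * B) := by
    have h1 := Nat.pow_log_le_self 2 hnB0
    have h2 : 2 ^ (κ + 1) = 8 * 2 ^ (Nat.log 2 (n * B)) := by rw [hκd, pow_add, pow_add]; ring
    rw [h2]
    exact Nat.mul_le_mul_left _ h1
  have hκ : 2 * (n * |b|) ≤ (2 : ℤ) ^ κ := by
    rw [← hbn]
    exact_mod_cast hκ1
  have hκ3 : n * B ≤ 2 ^ (κ + 1) := by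
    rw [pow_succ]
    omega
  -- elements of absolute value less than `c`
  have hsmall : ∀ Y : Finset ℤ, (∀ y ∈ Y, N ≤ |y|) → (Y.filter fun x => 0 < x ∧ x < c).card ≤ 2 ^ (κ + 1) := by
    intro Y hY
    refine le_trans ?_ hκ3
    rcases le_total (n * |b|) N with h | h
    · have : (Y.filter fun x => 0 < x ∧ x < c) = ∅ := by
        rw [filter_eq_empty_iff]
        rintro y hy ⟨h1, h2⟩
        have h3 := hY y hy
        rw [abs_of_pos h1] at h3
        rw [hcd, max_eq_right h] at h2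
        omega
      rw [this, card_empty]
      exact Nat.zero_le _
    · have h4 : (Y.filter fun x => 0 < x ∧ x < c) ⊆ Finset.Ioo 0 c := by
        intro y hy
        rw [mem_filter] at hy
        exact Finset.mem_Ioo.2 hy.2
      refine (card_le_card h4).trans ?_
      rw [Int.card_Ioo, hcd, max_eq_left h, ← hbn]
      have : ((n : ℤ) * (b.natAbs : ℤ) - 0 - 1).toNat ≤ n * b.natAbs := by
        rw [Int.toNat_le]
        push_cast
        omega
      exact this
  have hcn' : 2 ^ (H + 1) * c < (2 : ℤ) ^ n := by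
    rw [mul_comm]
    omega
  -- both signs
  have hpos := positive' (H := H) (κ := κ) ha hao hb hZ hc1 hc0 hdiff (by omega) (hsmall Z hmin) hκ
    (fun x hx => (le_abs_self x).trans_lt (hHlt x hx)) hcn'
  have hneg := positive' (H := H) (κ := κ) ha hao (b := -b) (by omega) (hZ.neg hao hb) (n := n) (c := c)
    (by rw [abs_neg]; exact hc1) hc0 (by
      intro x hx x' hx'
      rw [mem_nn] at hx hx'
      have := hdiff _ hx' _ hx
      omega) (by omega) (by
      apply hsmall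
      intro y hy
      rw [mem_nn] at hy
      have := hmin _ hy
      rwa [abs_neg] at this) (by rw [abs_neg]; exact hκ) (by
      intro x hx
      rw [mem_nn] at hx
      have := hHlt _ hx
      rw [abs_neg] at this
      exact (le_abs_self x).trans_lt this) hcn'
  rw [chg_nn] at hneg
  have hnegc : ((nn Z).filter fun x => 0 < x).card = (Z.filter fun x => x < 0).card := by
    have : (nn Z).filter (fun x => 0 < x) = nn (Z.filter fun x => x < 0) := by
      ext x
      rw [mem_filter, mem_nn, mem_nn, mem_filter]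
      constructor
      · rintro ⟨h1, h2⟩; exact ⟨h1, by omega⟩
      · rintro ⟨h1, h2⟩; exact ⟨h1, by omega⟩
    rw [this, card_nn]
  rw [hnegc] at hneg
  have htot : Z.card ≤ 1 + (Z.filter fun x => 0 < x).card + (Z.filter fun x => x < 0).card := by
    have hcov : Z ⊆ {0} ∪ (Z.filter fun x => 0 < x) ∪ (Z.filter fun x => x < 0) := by
      intro x hx
      rw [mem_union, mem_union, mem_singleton, mem_filter, mem_filter]
      rcases lt_trichotomy x 0 with h | h | h
      · exact Or.inr ⟨hx, h⟩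
      · exact Or.inl (Or.inl h)
      · exact Or.inl (Or.inr ⟨hx, h⟩)
    refine (card_le_card hcov).trans ((card_union_le _ _).trans ?_)
    apply add_le_add_left
    refine (card_union_le _ _).trans ?_
    rw [card_singleton]
  rw [← hA] at hpos hneg
  -- arithmetic
  have hAn : A + 1 ≤ n := by
    have : A + 1 ≤ H := by rw [hH]; nlinarith
    omega
  have hHn : H + 1 ≤ n := by omega
  refine ⟨?_, by omega⟩
  set P := (9 * (n + 1) ^ 2 * (A + 1)) ^ (Nat.log 2 n) with hP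
  have hP1 : 1 ≤ P := Nat.one_le_iff_ne_zero.2 (by positivity)
  have h1 : 2 ^ (κ + 1) + (H + 1) * (2 * (2 ^ (κ + 1) * P)) ≤ 24 * (n * n * B * P) := by
    have h2 : 2 ^ (κ + 1) ≤ 8 * (n * n * B * P) := by
      refine hκ2.trans (Nat.mul_le_mul_left _ ?_)
      calc n * B = n * 1 * B * 1 := by ring
        _ ≤ n * n * B * P := Nat.mul_le_mul (Nat.mul_le_mul (Nat.mul_le_mul le_rfl (by omega)) le_rfl) hP1
    have h3 : (H + 1) * (2 * (2 ^ (κ + 1) * P)) ≤ 16 * (n * n * B * P) := by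
      calc (H + 1) * (2 * (2 ^ (κ + 1) * P)) ≤ n * (2 * (8 * (n * B) * P)) :=
            Nat.mul_le_mul hHn (Nat.mul_le_mul le_rfl (Nat.mul_le_mul hκ2 le_rfl))
        _ = 16 * (n * n * B * P) := by ring
    omega
  have h2 : Z.card ≤ 1 + 48 * (n * n * B * P) := by omega
  have h3 : 1 ≤ n * n * B * P := by
    have : 1 ≤ n := by omega
    exact Nat.one_le_iff_ne_zero.2 (by positivity)
  have h4 : n * n * B * P ≤ B * m ^ 2 * (9 * m ^ 2 * (A + 1)) ^ (Nat.log 2 m) := by
    rw [hmn]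
    have h5 : n * n ≤ (n + 1) ^ 2 := by nlinarith
    have h6 : P ≤ (9 * (n + 1) ^ 2 * (A + 1)) ^ (Nat.log 2 (n + 1)) := by
      rw [hP]
      apply Nat.pow_le_pow_right (by positivity)
      exact Nat.log_mono_right (by omega)
    calc n * n * B * P ≤ (n + 1) ^ 2 * B * (9 * (n + 1) ^ 2 * (A + 1)) ^ (Nat.log 2 (n + 1)) :=
          Nat.mul_le_mul (Nat.mul_le_mul h5 le_rfl) h6
      _ = B * (n + 1) ^ 2 * (9 * (n + 1) ^ 2 * (A + 1)) ^ (Nat.log 2 (n + 1)) := by ring
  have e : 64 * B * m ^ 2 * (9 * m ^ 2 * (A + 1)) ^ (Nat.log 2 m) =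
      64 * (B * m ^ 2 * (9 * m ^ 2 * (A + 1)) ^ (Nat.log 2 m)) := by ring
  rw [e]
  omega

/-- The logarithmic form. -/
theorem real_count2 (ha : 3 ≤ a) (hao : a % 2 = 1) (hb : b % 2 = 1) {Z : Finset ℤ} (hZ : Cyc a b Z)
    {γ β ν m H : ℕ} (hγ : (a + 1) / 2 ≤ 2 ^ γ) (hβ : b.natAbs < 2 ^ β) {x0 : ℤ} (hx0 : x0 ∈ Z)
    (hν : |x0| < 2 ^ ν) (hH : H = γ * ((chg Z).card + 1)) (hm : m = 2 * (H + β + ν) + 9) (hγ1 : 1 ≤ γ) :
    Real.log Z.card ≤ Real.log |(b : ℝ)| + 5 * (1 + Real.log m) ^ 2 := by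
  obtain ⟨h, hA⟩ := count2 ha hao hb hZ hγ hβ hx0 hν hH hm hγ1
  set w := Real.log m with hw
  have hm9 : (9 : ℝ) ≤ m := by
    have : 9 ≤ m := by omega
    exact_mod_cast this
  have hw0 : 0 < w := Real.log_pos (by linarith)
  have hcard : 0 < Z.card := card_pos.2 ⟨x0, hx0⟩
  have hb1 : (1 : ℝ) ≤ |(b : ℝ)| := by
    have : 1 ≤ |b| := Int.one_le_abs (by rintro rfl; norm_num at hb)
    exact_mod_cast this
  have hbn : ((b.natAbs : ℕ) : ℝ) = |(b : ℝ)| := by
    rw [Nat.cast_natAbs, Int.cast_abs]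
  have h0 : Z.card ≤ 64 * b.natAbs * m ^ 2 * (9 * m ^ 3) ^ (Nat.log 2 m) := by
    refine h.trans (Nat.mul_le_mul_left _ (Nat.pow_le_pow_left ?_ _))
    calc 9 * m ^ 2 * ((chg Z).card + 1) ≤ 9 * m ^ 2 * m := Nat.mul_le_mul_left _ hA
      _ = 9 * m ^ 3 := by ring
  have h1 : Real.log Z.card ≤ Real.log (64 * |(b : ℝ)| * (m : ℝ) ^ 2 * (9 * (m : ℝ) ^ 3) ^ (Nat.log 2 m)) := by
    apply Real.log_le_log (by exact_mod_cast hcard)
    rw [← hbn]
    exact_mod_cast h0
  have hmpos : (0 : ℝ) < m := by linarith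
  rw [Real.log_mul (by positivity) (by positivity), Real.log_mul (by positivity) (by positivity),
    Real.log_mul (by positivity) (by positivity), Real.log_pow, Real.log_pow,
    Real.log_mul (by positivity) (by positivity), Real.log_pow, ← hw] at h1
  have l2 := Real.log_two_gt_d9
  have l2' := Real.log_two_lt_d9
  have h64 : Real.log 64 ≤ 4.2 := by
    rw [show (64 : ℝ) = 2 ^ 6 by norm_num, Real.log_pow]
    push_cast
    linarith
  have h9 : Real.log 9 ≤ 2.8 := by
    have : Real.log 9 ≤ Real.log 16 := Real.log_le_log (by norm_num) (by norm_num)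
    rw [show (16 : ℝ) = 2 ^ 4 by norm_num, Real.log_pow] at this
    push_cast at this
    linarith
  have hJ : (Nat.log 2 m : ℝ) * Real.log 2 ≤ w := by
    have h2 : (2 : ℝ) ^ (Nat.log 2 m) ≤ m := by
      have := Nat.pow_log_le_self 2 (x := m) (by omega)
      exact_mod_cast this
    have h3 := Real.log_le_log (by positivity) h2
    rwa [Real.log_pow] at h3
  have hJ' : (Nat.log 2 m : ℝ) ≤ 1.443 * w := by
    have hJ0 : (0 : ℝ) ≤ Nat.log 2 m := Nat.cast_nonneg _
    nlinarith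
  push_cast at h1
  have h5 : (Nat.log 2 m : ℝ) * (Real.log 9 + 3 * w) ≤ 1.443 * w * (2.8 + 3 * w) := by
    apply mul_le_mul hJ' (by linarith) _ (by positivity)
    have : 0 ≤ Real.log 9 := Real.log_nonneg (by norm_num)
    positivity
  nlinarith

end Pool.Agent.V5helper2.PC
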