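import Mathlib
import Pool.Agent.V5helper2.PC.Count2
import Pool.Agent.R343.LZG2
import Pool.Agent.H319R2.Measure
import Pool.Agent.H944.BX.Zero

set_option autoImplicit false

/-!
The number of parity changes for the cycles of `T_{a,b}`, uniformly in `b`.
-/

namespace Pool.Agent.V5helper2.PC

open Finset Pool.Agent.H944.BX

theorem final_real3 (C0 : ℝ) (hC0 : 1 ≤ C0) : ∃ c : ℝ, 0 < c ∧ ∀ l D m : ℝ, 0 ≤ l → 1 ≤ D →
    1 ≤ m → m ≤ C0 * (D + (1 + l) ^ 2) → l ≤ 5 * (1 + Real.log m) ^ 2 →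
    c * Real.exp (Real.sqrt (l / 5)) ≤ D := by
  set K : ℝ := 1 + Real.log (2 * C0) with hK
  have hlC : 0 ≤ Real.log (2 * C0) := Real.log_nonneg (by linarith)
  set B : ℝ := (5 * (K + 8) ^ 2 + 1) ^ 2 with hB
  have hB0 : 0 < B := by positivity
  refine ⟨min (1 / Real.exp K) (1 / Real.exp (Real.sqrt (B / 5))), by positivity,
    fun l A m hl hA hm hmC h => ?_⟩
  have hlm : 0 ≤ Real.log m := Real.log_nonneg hm
  have hs : Real.sqrt (l / 5) ≤ 1 + Real.log m := by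
    rw [Real.sqrt_le_left (by linarith)]
    linarith
  rcases le_or_gt ((1 + l) ^ 2) A with hcase | hcase
  · have h1 : m ≤ 2 * C0 * A := by nlinarith
    have h2 := Real.log_le_log (by linarith) h1
    rw [Real.log_mul (by positivity) (by positivity)] at h2
    have h3 : Real.exp (Real.sqrt (l / 5)) ≤ Real.exp (K + Real.log A) :=
      Real.exp_le_exp.2 (by rw [hK]; linarith)
    rw [Real.exp_add, Real.exp_log (by linarith)] at h3
    have h4 : min (1 / Real.exp K) (1 / Real.exp (Real.sqrt (B / 5))) * Real.exp (Real.sqrt (l / 5)) ≤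
        1 / Real.exp K * (Real.exp K * A) :=
      mul_le_mul (min_le_left _ _) h3 (Real.exp_pos _).le (by positivity)
    refine h4.trans (le_of_eq ?_)
    rw [← mul_assoc, one_div, inv_mul_cancel₀ (Real.exp_pos _).ne', one_mul]
  · have h1 : m ≤ 2 * C0 * (1 + l) ^ 2 := by nlinarith
    have h2 := Real.log_le_log (by linarith) h1
    rw [Real.log_mul (by positivity) (by positivity), Real.log_pow] at h2
    obtain ⟨q, hq⟩ : ∃ q : ℝ, q = Real.sqrt (Real.sqrt (1 + l)) := ⟨_, rfl⟩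
    have hq0 : 0 ≤ q := by rw [hq]; exact Real.sqrt_nonneg _
    have hq2 : q ^ 2 = Real.sqrt (1 + l) := by rw [hq, Real.sq_sqrt (Real.sqrt_nonneg _)]
    have hq4 : q ^ 4 = 1 + l := by
      calc q ^ 4 = (q ^ 2) ^ 2 := by ring
        _ = 1 + l := by rw [hq2, Real.sq_sqrt (by linarith)]
    have hq1 : 1 ≤ q := by
      by_contra hcon
      have : q ^ 4 < 1 := pow_lt_one₀ hq0 (not_le.1 hcon) (by norm_num)
      linarith
    have h3 : Real.log (1 + l) ≤ 4 * q := by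
      rw [← hq4, Real.log_pow]
      have := Real.log_le_sub_one_of_pos (show 0 < q by linarith)
      push_cast
      linarith
    have h4 : Real.sqrt (l / 5) ≤ K + 8 * q := by
      rw [hK]
      push_cast at h2
      linarith
    have h5 : l / 5 ≤ (K + 8 * q) ^ 2 := by
      rw [Real.sqrt_le_left (by positivity)] at h4
      exact h4
    have h7 : K + 8 * q ≤ (K + 8) * q := by nlinarith
    have h8 : (K + 8 * q) ^ 2 ≤ ((K + 8) * q) ^ 2 := pow_le_pow_left₀ (by positivity) h7 2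
    have h9 : q ^ 4 ≤ (5 * (K + 8) ^ 2 + 1) * q ^ 2 := by
      have : 1 ≤ q ^ 2 := one_le_pow₀ hq1
      nlinarith
    have h10 : q ^ 2 ≤ 5 * (K + 8) ^ 2 + 1 := by
      have hpos : 0 < q ^ 2 := by positivity
      by_contra hcon
      rw [not_le] at hcon
      nlinarith
    have h11 : l ≤ B := by
      have : q ^ 4 ≤ B := by
        rw [hB]
        calc q ^ 4 = (q ^ 2) ^ 2 := by ring
          _ ≤ _ := pow_le_pow_left₀ (by positivity) h10 2
      linarith
    have h12 : Real.exp (Real.sqrt (l / 5)) ≤ Real.exp (Real.sqrt (B / 5)) :=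
      Real.exp_le_exp.2 (Real.sqrt_le_sqrt (by linarith))
    have h13 : min (1 / Real.exp K) (1 / Real.exp (Real.sqrt (B / 5))) * Real.exp (Real.sqrt (l / 5)) ≤
        1 / Real.exp (Real.sqrt (B / 5)) * Real.exp (Real.sqrt (B / 5)) :=
      mul_le_mul (min_le_right _ _) h12 (Real.exp_pos _).le (by positivity)
    have h14 : 1 / Real.exp (Real.sqrt (B / 5)) * Real.exp (Real.sqrt (B / 5)) = 1 :=
      one_div_mul_cancel (Real.exp_pos _).ne'
    linarith

variable {a b : ℤ}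

theorem one_le_abs_b (hb : b % 2 = 1) : (1 : ℝ) ≤ |(b : ℝ)| := by
  have : 1 ≤ |b| := Int.one_le_abs (by rintro rfl; norm_num at hb)
  exact_mod_cast this

/-- **The general inequality.** -/
theorem core (γ : ℕ) (hγ1 : 1 ≤ γ) (C : ℝ) (hC : 0 ≤ C) : ∃ K : ℝ, 1 ≤ K ∧ ∀ a b : ℤ, 3 ≤ a → a % 2 = 1 →
    b % 2 = 1 → (a + 1) / 2 ≤ 2 ^ γ → ∀ Z : Finset ℤ, Cyc a b Z → ∀ x0 ∈ Z, ∀ ν : ℕ, |x0| < 2 ^ ν →
    ∀ l D : ℝ, l = max (Real.log Z.card - Real.log |(b : ℝ)|) 0 → ((chg Z).card : ℝ) + 1 ≤ D →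
    Real.log |(b : ℝ)| ≤ D → (ν : ℝ) ≤ C * (D + (1 + l) ^ 2) →
    (Z.card : ℝ) ≤ |(b : ℝ)| * Real.exp (5 * (Real.log (K * D)) ^ 2) := by
  obtain ⟨c, hc, hfin⟩ := final_real3 (2 * γ + 14 + 2 * C) (by
    have : (0 : ℝ) ≤ γ := Nat.cast_nonneg _
    linarith)
  have hγR : (1 : ℝ) ≤ γ := by exact_mod_cast hγ1
  refine ⟨max 1 (1 / c), le_max_left _ _, fun a b ha hao hb hγ Z hZ x0 hx0 ν hν l D hl hD hbD hνD => ?_⟩
  have hb1 := one_le_abs_b hb
  have hβ0 : 0 ≤ Real.log |(b : ℝ)| := Real.log_nonneg hb1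
  have hA0 : (0 : ℝ) ≤ (chg Z).card := Nat.cast_nonneg _
  have hD1 : 1 ≤ D := by linarith
  have hl0 : 0 ≤ l := by rw [hl]; exact le_max_right _ _
  have hb0 : b ≠ 0 := by rintro rfl; norm_num at hb
  obtain ⟨β, hβ1, hβ2⟩ : ∃ β : ℕ, b.natAbs < 2 ^ β ∧ (β : ℝ) ≤ 1 + 3 / 2 * Real.log |(b : ℝ)| := by
    refine ⟨Nat.log 2 b.natAbs + 1, Nat.lt_pow_succ_log_self (b := 2) (by norm_num) b.natAbs, ?_⟩
    have h1 := Nat.pow_log_le_self 2 (Int.natAbs_ne_zero.2 hb0)
    have h2 : (2 : ℝ) ^ (Nat.log 2 b.natAbs) ≤ |(b : ℝ)| := by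
      have : ((b.natAbs : ℕ) : ℝ) = |(b : ℝ)| := by rw [Nat.cast_natAbs, Int.cast_abs]
      rw [← this]
      exact_mod_cast h1
    have h3 := Real.log_le_log (by positivity) h2
    rw [Real.log_pow] at h3
    have l2 := Real.log_two_gt_d9
    have h4 : (0 : ℝ) ≤ Nat.log 2 b.natAbs := Nat.cast_nonneg _
    push_cast
    nlinarith
  have hmain := real_count2 ha hao hb hZ hγ hβ1 hx0 hν rfl rfl hγ1
  set A := (chg Z).card with hA
  set m : ℕ := 2 * (γ * (A + 1) + β + ν) + 9 with hm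
  have hmR : (m : ℝ) = 2 * (γ * (A + 1) + β + ν) + 9 := by rw [hm]; push_cast; ring
  have hm1 : (1 : ℝ) ≤ m := by
    have : 1 ≤ m := by omega
    exact_mod_cast this
  have hl5 : l ≤ 5 * (1 + Real.log m) ^ 2 := by
    rw [hl]
    apply _root_.max_le
    · linarith
    · positivity
  have hmle : (m : ℝ) ≤ (2 * γ + 14 + 2 * C) * (D + (1 + l) ^ 2) := by
    have h1 : (γ : ℝ) * (A + 1) ≤ γ * D := mul_le_mul_of_nonneg_left hD (by linarith)
    have h2 : 0 ≤ (2 * (γ : ℝ) + 14) * (1 + l) ^ 2 := by positivity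
    have h3 : (2 * (γ : ℝ) + 14 + 2 * C) * (D + (1 + l) ^ 2) =
      2 * (γ * D) + 14 * D + (2 * (γ : ℝ) + 14) * (1 + l) ^ 2 + 2 * (C * (D + (1 + l) ^ 2)) := by ring
    rw [hmR, h3]
    linarith
  have hres := hfin l D m hl0 hD1 hm1 hmle hl5
  -- the conclusion
  have h1 : Real.exp (Real.sqrt (l / 5)) ≤ max 1 (1 / c) * D := by
    have h2 : Real.exp (Real.sqrt (l / 5)) ≤ 1 / c * D := by
      rw [one_div, inv_mul_eq_div, le_div_iff₀ hc]
      linarith
    exact h2.trans (mul_le_mul_of_nonneg_right (le_max_right _ _) (by linarith))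
  have h2 := Real.log_le_log (Real.exp_pos _) h1
  rw [Real.log_exp] at h2
  have h3 : l / 5 ≤ (Real.log (max 1 (1 / c) * D)) ^ 2 := by
    rw [Real.sqrt_le_left ((Real.sqrt_nonneg _).trans h2)] at h2
    exact h2
  have h4 : Real.log Z.card - Real.log |(b : ℝ)| ≤ l := by rw [hl]; exact le_max_left _ _
  have hpos : (0 : ℝ) < Z.card := by
    have := card_pos.2 ⟨x0, hx0⟩
    exact_mod_cast this
  rw [← Real.log_le_log_iff hpos (by positivity), Real.log_mul (by positivity) (Real.exp_pos _).ne',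
    Real.log_exp]
  linarith

end Pool.Agent.V5helper2.PC
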