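import Mathlib
import Pool.Agent.V5helper2.PC.Gen

set_option autoImplicit false

/-!
The number of parity changes for the cycles of `T_{a,b}`, uniformly in `b`: conclusions.
-/

namespace Pool.Agent.V5helper2.PC

open Finset Pool.Agent.H944.BX

open Pool.Agent.R343.LZG (IsCyc lg)

variable {a b : ℤ}

theorem log_four {y : ℝ} (hy : 1 ≤ y) : (Real.log y) ^ 4 ≤ 256 * y := by
  obtain ⟨q, hq⟩ : ∃ q : ℝ, q = Real.sqrt (Real.sqrt y) := ⟨_, rfl⟩
  have hq0 : 0 ≤ q := by rw [hq]; exact Real.sqrt_nonneg _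
  have hq2 : q ^ 2 = Real.sqrt y := by rw [hq, Real.sq_sqrt (Real.sqrt_nonneg _)]
  have hq4 : q ^ 4 = y := by
    calc q ^ 4 = (q ^ 2) ^ 2 := by ring
      _ = y := by rw [hq2, Real.sq_sqrt (by linarith)]
  have hqpos : 0 < q := by
    rcases hq0.lt_or_eq with h | h
    · exact h
    · rw [← h] at hq4
      norm_num at hq4
      linarith
  have h3 : Real.log y ≤ 4 * q := by
    rw [← hq4, Real.log_pow]
    have := Real.log_le_sub_one_of_pos hqpos
    push_cast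
    linarith
  have h0 : 0 ≤ Real.log y := Real.log_nonneg hy
  calc (Real.log y) ^ 4 ≤ (4 * q) ^ 4 := pow_le_pow_left₀ h0 h3 4
    _ = 256 * y := by rw [mul_pow, hq4]; norm_num

theorem isCyc_cyc {Z : Finset ℤ} (hZ : IsCyc (T a b) Z) : Cyc a b Z := by
  obtain ⟨x, p, hp, hx, rfl⟩ := hZ
  exact cyc_of hp hx

/-- the number of the binary digits -/
theorem nu_of (hb : b % 2 = 1) (x : ℤ) : ∃ ν : ℕ, |x| < 2 ^ ν ∧ (ν : ℝ) ≤ 1 + lg b x := by
  have hb1 := one_le_abs_b hb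
  have hlg : 0 ≤ lg b x := Pool.Agent.R343.LZG.lg_nonneg hb x
  refine ⟨⌈lg b x⌉₊, ?_, ?_⟩
  · have h1 : (|x| : ℝ) < 2 ^ (⌈lg b x⌉₊) := by
      have h2 : |(x : ℝ)| + |(b : ℝ)| = 2 ^ (lg b x) := by
        unfold lg
        rw [Real.rpow_logb (by norm_num) (by norm_num) (by positivity)]
      have h3 : (2 : ℝ) ^ (lg b x) ≤ 2 ^ ((⌈lg b x⌉₊ : ℕ) : ℝ) :=
        Real.rpow_le_rpow_of_exponent_le (by norm_num) (Nat.le_ceil _)
      rw [Real.rpow_natCast] at h3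
      linarith
    have h2 : (((|x| : ℤ)) : ℝ) < ((2 ^ (⌈lg b x⌉₊) : ℤ) : ℝ) := by push_cast; exact h1
    exact_mod_cast h2
  · have := Nat.ceil_lt_add_one hlg
    linarith

theorem lg_real (hb : b % 2 = 1) (x : ℤ) : Real.log (|(x : ℝ)| + |(b : ℝ)|) ≤ lg b x := by
  have hb1 := one_le_abs_b hb
  have h0 : 0 ≤ Real.log (|(x : ℝ)| + |(b : ℝ)|) := Real.log_nonneg (by
    have := abs_nonneg (x : ℝ)
    linarith)
  unfold lg
  rw [Real.logb, le_div_iff₀ (Real.log_pos (by norm_num))]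
  have := Real.log_two_lt_d9
  nlinarith

/-- the largest element -/
theorem height (ha : 3 ≤ a) (hao : a % 2 = 1) (hb : b % 2 = 1) {Z : Finset ℤ} (hZ : Cyc a b Z) {γ : ℕ}
    (hγ : (a + 1) / 2 ≤ 2 ^ γ) {x z : ℤ} (hx : x ∈ Z) (hz : z ∈ Z) :
    |(z : ℝ)| ≤ Real.exp (lg b x + γ * ((chg Z).card + 1)) := by
  have hb1 := one_le_abs_b hb
  have h1 := abs_le_of ha hao hb hZ hx (c := |x| + |b|) (by have := abs_nonneg x; linarith)
    (by have := abs_nonneg b; linarith) hz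
  have h2 : (|z| : ℤ) ≤ (|x| + |b|) * 2 ^ (γ * ((chg Z).card + 1)) := by
    refine h1.trans (mul_le_mul_of_nonneg_left ?_ (by positivity))
    rw [pow_mul]
    exact pow_le_pow_left₀ (by omega) hγ _
  have h3 : |(z : ℝ)| ≤ (|(x : ℝ)| + |(b : ℝ)|) * 2 ^ (γ * ((chg Z).card + 1)) := by exact_mod_cast h2
  have hpos : 0 < |(x : ℝ)| + |(b : ℝ)| := by
    have := abs_nonneg (x : ℝ)
    linarith
  refine h3.trans ?_
  rw [Real.exp_add]
  apply mul_le_mul _ _ (by positivity) (Real.exp_pos _).le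
  · rw [← Real.log_le_iff_le_exp hpos]
    exact lg_real hb x
  · have h4 : (2 : ℝ) ^ (γ * ((chg Z).card + 1)) = Real.exp (Real.log 2 * (γ * ((chg Z).card + 1) : ℕ)) := by
      rw [← Real.rpow_natCast, Real.rpow_def_of_pos (by norm_num)]
    rw [h4, Real.exp_le_exp]
    have := Real.log_two_lt_d9
    have h0 : (0 : ℝ) ≤ ((γ * ((chg Z).card + 1) : ℕ) : ℝ) := Nat.cast_nonneg _
    push_cast at h0 ⊢
    nlinarith

/-- the general conclusion -/
theorem concl (γ : ℕ) (hγ1 : 1 ≤ γ) (C : ℝ) (hC : 0 ≤ C) : ∃ K : ℝ, 1 ≤ K ∧ ∀ a b : ℤ, 3 ≤ a → a % 2 = 1 →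
    b % 2 = 1 → (a + 1) / 2 ≤ 2 ^ γ → ∀ Z : Finset ℤ, Cyc a b Z → ∀ x0 ∈ Z, ∀ D β' : ℝ,
    0 ≤ β' → Real.log |(b : ℝ)| ≤ β' → ((chg Z).card : ℝ) + 1 + β' ≤ D →
    (∀ l : ℝ, l = max (Real.log Z.card - Real.log |(b : ℝ)|) 0 → 1 + lg b x0 ≤ C * (D + (1 + l) ^ 2)) →
    (Z.card : ℝ) ≤ |(b : ℝ)| * Real.exp (5 * (Real.log (K * D)) ^ 2) ∧
      ∀ z ∈ Z, |(z : ℝ)| ≤ Real.exp (K * D) := by
  obtain ⟨K, hK, hmain⟩ := core γ hγ1 C hC
  have hγR : (1 : ℝ) ≤ γ := by exact_mod_cast hγ1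
  refine ⟨K + γ + C * (3 + 2 * (25 * 256 * K)), by nlinarith [mul_nonneg hC (by linarith : (0:ℝ) ≤ K)],
    fun a b ha hao hb hγ Z hZ x0 hx0 D β' hβ'0 hβ' hD hlg => ?_⟩
  have hb1 := one_le_abs_b hb
  have hβ0 : 0 ≤ Real.log |(b : ℝ)| := Real.log_nonneg hb1
  have hA0 : (0 : ℝ) ≤ (chg Z).card := Nat.cast_nonneg _
  have hD1 : 1 ≤ D := by linarith
  obtain ⟨ν, hν1, hν2⟩ := nu_of hb x0
  set l := max (Real.log Z.card - Real.log |(b : ℝ)|) 0 with hl
  have hl0 : 0 ≤ l := le_max_right _ _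
  have hlg' := hlg l rfl
  have h1 := hmain a b ha hao hb hγ Z hZ x0 hx0 ν hν1 l D hl (by linarith) (by linarith) (hν2.trans hlg')
  have hKD : 1 ≤ K * D := by nlinarith
  have hKD' : K * D ≤ (K + γ + C * (3 + 2 * (25 * 256 * K))) * D := by
    apply mul_le_mul_of_nonneg_right _ (by linarith)
    have : 0 ≤ C * (3 + 2 * (25 * 256 * K)) := mul_nonneg hC (by linarith)
    linarith
  constructor
  · refine h1.trans (mul_le_mul_of_nonneg_left ?_ (by linarith))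
    rw [Real.exp_le_exp]
    apply mul_le_mul_of_nonneg_left _ (by norm_num)
    exact pow_le_pow_left₀ (Real.log_nonneg hKD) (Real.log_le_log (by linarith) hKD') 2
  · intro z hz
    refine (height ha hao hb hZ hγ hx0 hz).trans ?_
    rw [Real.exp_le_exp]
    have hpos : (0 : ℝ) < Z.card := by
      have := card_pos.2 ⟨x0, hx0⟩
      exact_mod_cast this
    have h2 : Real.log Z.card ≤ Real.log |(b : ℝ)| + 5 * (Real.log (K * D)) ^ 2 := by
      have h3 := Real.log_le_log hpos h1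
      rw [Real.log_mul (by positivity) (Real.exp_pos _).ne', Real.log_exp] at h3
      exact h3
    have h3 : l ≤ 5 * (Real.log (K * D)) ^ 2 := by
      rw [hl]
      apply _root_.max_le
      · linarith
      · positivity
    have h4 : (1 + l) ^ 2 ≤ 2 + 2 * (25 * 256 * (K * D)) := by
      have h5 := log_four hKD
      have h6 : l ^ 2 ≤ (5 * (Real.log (K * D)) ^ 2) ^ 2 := pow_le_pow_left₀ hl0 h3 2
      have h7 : (5 * (Real.log (K * D)) ^ 2) ^ 2 = 25 * (Real.log (K * D)) ^ 4 := by ring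
      nlinarith [sq_nonneg (1 - l)]
    have h5 : C * (D + (1 + l) ^ 2) ≤ C * ((3 + 2 * (25 * 256 * K)) * D) := by
      apply mul_le_mul_of_nonneg_left _ hC
      nlinarith
    have h6 : (γ : ℝ) * ((chg Z).card + 1) ≤ γ * D := mul_le_mul_of_nonneg_left (by linarith) (by linarith)
    have h7 : (K + γ + C * (3 + 2 * (25 * 256 * K))) * D =
      K * D + γ * D + C * ((3 + 2 * (25 * 256 * K)) * D) := by ring
    rw [h7]
    linarith

/-- **Odd primes `a`.** -/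
theorem prime_main {q : ℕ} (hq : q.Prime) (hq2 : q ≠ 2) : ∃ K : ℝ, 1 ≤ K ∧ ∀ b : ℤ, b % 2 = 1 →
    ∀ Z : Finset ℤ, IsCyc (T q b) Z →
    (Z.card : ℝ) ≤ |(b : ℝ)| *
      Real.exp (5 * (Real.log (K * ((chg Z).card + 1 + (Real.log |(b : ℝ)|) ^ 2))) ^ 2) ∧
    ∀ z ∈ Z, |(z : ℝ)| ≤ Real.exp (K * ((chg Z).card + 1 + (Real.log |(b : ℝ)|) ^ 2)) := by
  obtain ⟨C, hC, hleast⟩ := Pool.Agent.R343.LZG.least_bound hq hq2
  have hqo : (q : ℤ) % 2 = 1 := by
    rcases hq.eq_two_or_odd with h | h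
    · exact absurd h hq2
    · omega
  have hq3 : (3 : ℤ) ≤ q := by
    have := hq.two_le
    omega
  obtain ⟨K, hK, hmain⟩ := concl q (by omega) (4 * C) (by linarith)
  have hγ : ((q : ℤ) + 1) / 2 ≤ 2 ^ q := by
    have h1 : q < 2 ^ q := Nat.lt_two_pow_self
    have h2 : (q : ℤ) < 2 ^ q := by exact_mod_cast h1
    omega
  refine ⟨2 * K, by linarith, fun b hb Z hZ => ?_⟩
  have hb1 := one_le_abs_b hb
  have hβ0 : 0 ≤ Real.log |(b : ℝ)| := Real.log_nonneg hb1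
  have hne : Z.Nonempty := by
    obtain ⟨x, p, hp, -, rfl⟩ := hZ
    exact ⟨x, mem_image.2 ⟨0, mem_range.2 (by omega), rfl⟩⟩
  obtain ⟨x0, hx0, hmin⟩ := exists_min_image Z (fun x => |x|) hne
  obtain ⟨hc1, hc2, -, hc3⟩ := Pool.Agent.R343.LZG.elem hZ hx0
  have hl := hleast b hb x0 Z.card hc1 hc2 (fun j => hmin _ (hc3 j))
  set β := Real.log |(b : ℝ)| with hβ
  have hA0 : (0 : ℝ) ≤ (chg Z).card := Nat.cast_nonneg _
  have hββ : β ≤ 1 + β ^ 2 := by nlinarith [sq_nonneg (β - 1)]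
  have h := hmain q b hq3 hqo hb hγ Z (isCyc_cyc hZ) x0 hx0 (2 * ((chg Z).card + 1 + β ^ 2)) β hβ0 le_rfl
    (by nlinarith) (by
      intro l hl'
      have h1 : Real.log Z.card ≤ β + l := by
        have := le_max_left (Real.log Z.card - β) 0
        rw [← hl'] at this
        linarith
      have hl0 : 0 ≤ l := by rw [hl']; exact le_max_right _ _
      have hcR : (1 : ℝ) ≤ Z.card := by exact_mod_cast hc1
      have h0 : 0 ≤ Real.log Z.card := Real.log_nonneg hcR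
      have h2 : (1 + Real.log Z.card) ^ 2 ≤ 2 * β ^ 2 + 2 * (1 + l) ^ 2 := by
        have : (1 + Real.log Z.card) ^ 2 ≤ (β + (1 + l)) ^ 2 :=
          pow_le_pow_left₀ (by linarith) (by linarith) 2
        nlinarith [sq_nonneg (β - (1 + l))]
      have h3 : C * (β + (1 + Real.log Z.card) ^ 2) ≤
          C * (4 * (2 * ((chg Z).card + 1 + β ^ 2) + (1 + l) ^ 2)) := by
        apply mul_le_mul_of_nonneg_left _ hC.le
        nlinarith [sq_nonneg (1 + l), sq_nonneg β]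
      linarith)
  have e : K * (2 * (((chg Z).card : ℝ) + 1 + β ^ 2)) = 2 * K * ((chg Z).card + 1 + β ^ 2) := by ring
  rw [e] at h
  exact h

/-- the least element of a cycle of `3x+b` -/
theorem least_three : ∃ C : ℝ, 1 ≤ C ∧ ∀ k : ℤ, k % 2 = 1 →
    ∀ (x : ℤ) (p : ℕ), 1 ≤ p → (T 3 k)^[p] x = x → (∀ j, |x| ≤ |(T 3 k)^[j] x|) →
    |(x : ℝ)| ≤ C * |(k : ℝ)| * (p : ℝ) ^ 14 := by
  obtain ⟨c, hc, hm⟩ := Pool.Agent.H319R2.measure
  refine ⟨max 1 (2 ^ 13 / c), le_max_left _ _, fun k hk x p hp hper hmin => ?_⟩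
  have hk1 := one_le_abs_b hk
  have hpR : (1 : ℝ) ≤ p := by exact_mod_cast hp
  have hp14 : (1 : ℝ) ≤ (p : ℝ) ^ 14 := one_le_pow₀ hpR
  rcases le_or_gt |k| |x| with hkx | hkx
  · have hx : x ≠ 0 := by
      rintro rfl
      rw [abs_zero] at hkx
      have h0 : k = 0 := abs_eq_zero.1 (le_antisymm hkx (abs_nonneg k))
      rw [h0] at hk
      omega
    have hx0 : (0 : ℝ) < |(x : ℝ)| := by
      have : (x : ℝ) ≠ 0 := by exact_mod_cast hx
      positivity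
    have hT : Pool.Agent.H547R3.Sub.Tm ((3 : ℕ) : ℤ) k = T 3 k := by
      funext y
      rfl
    have h1 := Pool.Agent.H547R3.Sub.sum_logs (q := 3) le_rfl (by norm_num) hk x hx hkx
      (fun i => by rw [hT]; exact hmin i) p
    rw [hT, hper, sub_self, zero_sub, abs_neg] at h1
    set N := Pool.Agent.H547R3.Sub.odds ((3 : ℕ) : ℤ) k x p with hN
    have hNp : N ≤ p := Pool.Agent.H547R3.Sub.odds_le _ _ _ _
    have hNR : (N : ℝ) ≤ p := by exact_mod_cast hNp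
    have h2 := hm (p : ℤ) (-(N : ℤ)) (Or.inl (by omega))
    have h3 : (((|(p : ℤ)| + |-(N : ℤ)| : ℤ)) : ℝ) ≤ 2 * p := by
      rw [abs_neg, Nat.abs_cast, Nat.abs_cast]
      push_cast
      linarith
    have h30 : (0 : ℝ) ≤ (((|(p : ℤ)| + |-(N : ℤ)| : ℤ)) : ℝ) := by positivity
    have h4 : |((p : ℤ) : ℝ) * Real.log 2 + ((-(N : ℤ) : ℤ) : ℝ) * Real.log 3| =
        |(N : ℝ) * Real.log ((3 : ℕ) : ℝ) - p * Real.log 2| := by
      rw [← abs_neg]
      push_cast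
      congr 1
      ring
    rw [h4] at h2
    have h5 : |(N : ℝ) * Real.log ((3 : ℕ) : ℝ) - p * Real.log 2| ≤ p * (|(k : ℝ)| / |(x : ℝ)|) :=
      h1.trans (mul_le_mul_of_nonneg_right hNR (by positivity))
    have h6 : c ≤ (2 * (p : ℝ)) ^ 13 * (p * (|(k : ℝ)| / |(x : ℝ)|)) :=
      h2.trans (mul_le_mul (pow_le_pow_left₀ h30 h3 13) h5 (abs_nonneg _) (by positivity))
    have h7 : (2 * (p : ℝ)) ^ 13 * (p * (|(k : ℝ)| / |(x : ℝ)|)) = 2 ^ 13 * |(k : ℝ)| * (p : ℝ) ^ 14 / |(x : ℝ)| := by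
      field_simp
    rw [h7, le_div_iff₀ hx0] at h6
    have h8 : |(x : ℝ)| ≤ 2 ^ 13 / c * |(k : ℝ)| * (p : ℝ) ^ 14 := by
      rw [div_mul_eq_mul_div, div_mul_eq_mul_div, le_div_iff₀ hc]
      linarith
    refine h8.trans ?_
    apply mul_le_mul_of_nonneg_right _ (by positivity)
    exact mul_le_mul_of_nonneg_right (le_max_right _ _) (by positivity)
  · have h1 : |(x : ℝ)| ≤ |(k : ℝ)| := by exact_mod_cast hkx.le
    have h2 : (1 : ℝ) ≤ max 1 (2 ^ 13 / c) := le_max_left _ _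
    calc |(x : ℝ)| ≤ 1 * |(k : ℝ)| * 1 := by linarith
      _ ≤ _ := by
        apply mul_le_mul _ hp14 (by norm_num) (by positivity)
        exact mul_le_mul_of_nonneg_right h2 (by positivity)

/-- **The maps `3x+b`.** -/
theorem three_main : ∃ K : ℝ, 1 ≤ K ∧ ∀ b : ℤ, b % 2 = 1 → ∀ Z : Finset ℤ, IsCyc (T 3 b) Z →
    (Z.card : ℝ) ≤ |(b : ℝ)| *
      Real.exp (5 * (Real.log (K * ((chg Z).card + 1 + Real.log |(b : ℝ)|))) ^ 2) ∧
    ∀ z ∈ Z, |(z : ℝ)| ≤ Real.exp (K * ((chg Z).card + 1 + Real.log |(b : ℝ)|)) := by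
  obtain ⟨C, hC, hleast⟩ := least_three
  have hlC : 0 ≤ Real.log C := Real.log_nonneg hC
  obtain ⟨K, hK, hmain⟩ := concl 1 le_rfl (2 * (50 + Real.log C)) (by linarith)
  refine ⟨K, hK, fun b hb Z hZ => ?_⟩
  have hb1 := one_le_abs_b hb
  have hβ0 : 0 ≤ Real.log |(b : ℝ)| := Real.log_nonneg hb1
  have hne : Z.Nonempty := by
    obtain ⟨x, p, hp, -, rfl⟩ := hZ
    exact ⟨x, mem_image.2 ⟨0, mem_range.2 (by omega), rfl⟩⟩
  obtain ⟨x0, hx0, hmin⟩ := exists_min_image Z (fun x => |x|) hne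
  obtain ⟨hc1, hc2, -, hc3⟩ := Pool.Agent.R343.LZG.elem hZ hx0
  have hl := hleast b hb x0 Z.card hc1 hc2 (fun j => hmin _ (hc3 j))
  set β := Real.log |(b : ℝ)| with hβ
  have hA0 : (0 : ℝ) ≤ (chg Z).card := Nat.cast_nonneg _
  have hcR : (1 : ℝ) ≤ Z.card := by exact_mod_cast hc1
  have hcpos : (0 : ℝ) < Z.card := by linarith
  have hlg : 1 + lg b x0 ≤ 1 + 3 / 2 * (Real.log 2 + Real.log C + β + 14 * Real.log Z.card) := by
    have h1 : |(x0 : ℝ)| + |(b : ℝ)| ≤ 2 * (C * |(b : ℝ)| * (Z.card : ℝ) ^ 14) := by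
      have h2 : |(b : ℝ)| ≤ C * |(b : ℝ)| * (Z.card : ℝ) ^ 14 := by
        calc |(b : ℝ)| = 1 * |(b : ℝ)| * 1 := by ring
          _ ≤ _ := by
            apply mul_le_mul _ (one_le_pow₀ hcR) (by norm_num) (by positivity)
            exact mul_le_mul_of_nonneg_right hC (by positivity)
      linarith
    have hpos : 0 < |(x0 : ℝ)| + |(b : ℝ)| := by
      have := abs_nonneg (x0 : ℝ)
      linarith
    have h3 := Real.log_le_log hpos h1
    have hC0 : C ≠ 0 := by linarith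
    have hbne : |(b : ℝ)| ≠ 0 := by linarith
    rw [Real.log_mul (by norm_num) (by positivity), Real.log_mul (by positivity) (by positivity),
      Real.log_mul hC0 hbne, Real.log_pow] at h3
    push_cast at h3
    have h4 : lg b x0 ≤ 3 / 2 * Real.log (|(x0 : ℝ)| + |(b : ℝ)|) := by
      unfold lg
      rw [Real.logb, div_le_iff₀ (Real.log_pos (by norm_num))]
      have h5 : 0 ≤ Real.log (|(x0 : ℝ)| + |(b : ℝ)|) := Real.log_nonneg (by
        have := abs_nonneg (x0 : ℝ)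
        linarith)
      have := Real.log_two_gt_d9
      nlinarith
    linarith
  refine hmain 3 b le_rfl (by norm_num) hb (by norm_num) Z (isCyc_cyc hZ) x0 hx0
    ((chg Z).card + 1 + β) β hβ0 le_rfl le_rfl ?_
  intro l hl'
  have h1 : Real.log Z.card ≤ β + l := by
    have := le_max_left (Real.log Z.card - β) 0
    rw [← hl'] at this
    linarith
  have hl0 : 0 ≤ l := by rw [hl']; exact le_max_right _ _
  have hl2 : Real.log 2 ≤ 1 := by have := Real.log_two_lt_d9; linarith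
  have h5 : l ≤ (1 + l) ^ 2 := by nlinarith
  have h6 : 1 ≤ (1 + l) ^ 2 := by nlinarith
  have h7 : Real.log C ≤ Real.log C * ((chg Z).card + 1 + β + (1 + l) ^ 2) := by nlinarith
  nlinarith

/-- There are finitely many cycles of bounded length. -/
theorem finite_of_card' (ha : 3 ≤ a) (hao : a % 2 = 1) (hb : b % 2 = 1) {S : Set (Finset ℤ)} {M : ℕ}
    (h : ∀ Z ∈ S, IsCyc (T a b) Z ∧ Z.card ≤ M) : S.Finite := by
  have hF := finite_periodic ha hao hb M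
  refine Set.Finite.subset (hF.toFinset.powerset.finite_toSet) ?_
  intro Z hZ
  rw [mem_coe, mem_powerset]
  intro x hx
  rw [Set.Finite.mem_toFinset]
  obtain ⟨hc, hM⟩ := h Z hZ
  obtain ⟨h1, h2, -, -⟩ := Pool.Agent.R343.LZG.elem hc hx
  exact ⟨Z.card, h1, hM, h2⟩

/-- There are finitely many cycles with bounded number of changes. -/
theorem finite_of_bound (ha : 3 ≤ a) (hao : a % 2 = 1) (hb : b % 2 = 1) (A : ℕ) {K β' : ℝ} (hK : 1 ≤ K)
    (hβ' : 0 ≤ β') (h : ∀ Z : Finset ℤ, IsCyc (T a b) Z → (Z.card : ℝ) ≤ |(b : ℝ)| *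
      Real.exp (5 * (Real.log (K * ((chg Z).card + 1 + β'))) ^ 2)) :
    {Z : Finset ℤ | IsCyc (T a b) Z ∧ (chg Z).card ≤ A}.Finite := by
  refine finite_of_card' ha hao hb (M := ⌈|(b : ℝ)| *
    Real.exp (5 * (Real.log (K * (A + 1 + β'))) ^ 2)⌉₊) ?_
  rintro Z ⟨hZ, hA⟩
  refine ⟨hZ, ?_⟩
  have h1 := h Z hZ
  have hA' : ((chg Z).card : ℝ) ≤ A := by exact_mod_cast hA
  have hA0 : (0 : ℝ) ≤ (chg Z).card := Nat.cast_nonneg _
  have h2 : (Z.card : ℝ) ≤ |(b : ℝ)| * Real.exp (5 * (Real.log (K * (A + 1 + β'))) ^ 2) := by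
    refine h1.trans (mul_le_mul_of_nonneg_left ?_ (abs_nonneg _))
    rw [Real.exp_le_exp]
    apply mul_le_mul_of_nonneg_left _ (by norm_num)
    apply pow_le_pow_left₀ (Real.log_nonneg (by nlinarith))
    apply Real.log_le_log (by positivity)
    apply mul_le_mul_of_nonneg_left _ (by linarith)
    linarith
  exact_mod_cast h2.trans (Nat.le_ceil _)

end Pool.Agent.V5helper2.PC
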