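import Mathlib
import Pool.Agent.V5helper2.PC.Cross

set_option autoImplicit false

/-!
The number of the elements of a cycle in terms of the number of parity changes.
-/

namespace Pool.Agent.V5helper2.PC

open Finset Pool.Agent.H944.BX

variable {a b : ℤ}

/-- the constant of the recursion -/
def QQ (n s A B : ℕ) : ℕ := 1 + n * (n + 1) * A * (2 ^ (s + 1) * n * B + 1) + n * (n * B)

theorem levels (ha : 3 ≤ a) (hao : a % 2 = 1) (hb : b % 2 = 1) {Z : Finset ℤ}
    (hZ : Cyc a b Z) {n s : ℕ} {c : ℤ} (hc : n * |b| ≤ c) (hc0 : 0 < c)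
    (hn : ∀ x ∈ Z, ∀ x' ∈ Z, x' - x < 2 ^ n)
    (he : (Z.filter fun x => 0 < x ∧ x < c).card ≤ n * b.natAbs) (h : ℕ) :
    (Z.filter fun x => 2 ^ h * c ≤ x ∧ x < 2 ^ (h + 1) * c).card ≤
      QQ n s (chg Z).card b.natAbs * (n + 1) ^ (h / (s + 1)) := by
  classical
  induction h using Nat.strong_induction_on with
  | _ h ih =>
    rcases lt_or_ge s h with hs | hs
    · obtain ⟨h', rfl⟩ : ∃ h', h = h' + (s + 1) := ⟨h - (s + 1), by omega⟩
      have h1 := level ha hao hb hZ.clos hZ.inj (n := n) (s := s) (y := 2 ^ (h' + 1) * c) (by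
        have : (1 : ℤ) ≤ 2 ^ (h' + 1) := one_le_pow₀ (by norm_num)
        nlinarith) (by positivity) hn
      have e1 : (2 : ℤ) ^ s * (2 ^ (h' + 1) * c) = 2 ^ (h' + (s + 1)) * c := by
        rw [← mul_assoc, ← pow_add]; congr 2; ring
      have e2 : (2 : ℤ) ^ (s + 1) * (2 ^ (h' + 1) * c) = 2 ^ (h' + (s + 1) + 1) * c := by
        rw [← mul_assoc, ← pow_add]; congr 2; ring
      have e3 : (Z.filter fun z => 2 ^ (h' + 1) * c ≤ 2 * z ∧ z < 2 ^ (h' + 1) * c) =
          Z.filter fun x => 2 ^ h' * c ≤ x ∧ x < 2 ^ (h' + 1) * c := by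
        apply filter_congr
        intro z _
        have : (2 : ℤ) ^ (h' + 1) * c = 2 * (2 ^ h' * c) := by rw [pow_succ]; ring
        constructor
        · rintro ⟨h2, h3⟩; exact ⟨by omega, h3⟩
        · rintro ⟨h2, h3⟩; exact ⟨by omega, h3⟩
      rw [e1, e2, e3] at h1
      have h2 := ih h' (by omega)
      have e4 : (h' + (s + 1)) / (s + 1) = h' / (s + 1) + 1 := Nat.add_div_right _ (by omega)
      rw [e4, pow_succ]
      set q := QQ n s (chg Z).card b.natAbs
      set P := (n + 1) ^ (h' / (s + 1))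
      have hP : 1 ≤ P := Nat.one_le_pow _ _ (by omega)
      have h3 : 1 + n * (n + 1) * (chg Z).card * (2 ^ (s + 1) * n * b.natAbs + 1) ≤ q := by
        show _ ≤ QQ n s (chg Z).card b.natAbs
        unfold QQ
        exact Nat.le_add_right _ _
      calc _ ≤ _ := h1
        _ ≤ q + n * (q * P) := add_le_add h3 (Nat.mul_le_mul_left _ h2)
        _ ≤ q * P + n * (q * P) := by
            apply add_le_add_left
            exact Nat.le_mul_of_pos_right _ hP
        _ = q * (P * (n + 1)) := by ring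
    · have h1 := level ha hao hb hZ.clos hZ.inj (n := n) (s := h) (y := c) hc hc0 hn
      have e4 : h / (s + 1) = 0 := Nat.div_eq_of_lt (by omega)
      rw [e4, pow_zero, mul_one]
      refine h1.trans ?_
      unfold QQ
      apply add_le_add
      · apply add_le_add_right
        apply Nat.mul_le_mul_left
        apply add_le_add_left
        apply Nat.mul_le_mul_right
        apply Nat.mul_le_mul_right
        exact Nat.pow_le_pow_right (by norm_num) (by omega)
      · apply Nat.mul_le_mul_left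
        refine le_trans (card_le_card ?_) he
        intro z hz
        rw [mem_filter] at hz ⊢
        exact ⟨hz.1, by omega, hz.2.2⟩

/-- the number of the positive elements -/
theorem positive (ha : 3 ≤ a) (hao : a % 2 = 1) (hb : b % 2 = 1) {Z : Finset ℤ}
    (hZ : Cyc a b Z) {n s H : ℕ} {c : ℤ} (hc : n * |b| ≤ c) (hc0 : 0 < c)
    (hn : ∀ x ∈ Z, ∀ x' ∈ Z, x' - x < 2 ^ n)
    (he : (Z.filter fun x => 0 < x ∧ x < c).card ≤ n * b.natAbs)
    (hH : ∀ x ∈ Z, x < 2 ^ (H + 1) * c) :
    (Z.filter fun x => 0 < x).card ≤ n * b.natAbs +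
      (H + 1) * (QQ n s (chg Z).card b.natAbs * (n + 1) ^ (H / (s + 1))) := by
  classical
  have hcov : (Z.filter fun x => 0 < x) ⊆ (Z.filter fun x => 0 < x ∧ x < c) ∪
      (range (H + 1)).biUnion fun h => Z.filter fun x => 2 ^ h * c ≤ x ∧ x < 2 ^ (h + 1) * c := by
    intro x hx
    rw [mem_filter] at hx
    rw [mem_union]
    by_cases hxc : x < c
    · left
      rw [mem_filter]
      exact ⟨hx.1, hx.2, hxc⟩
    · right
      rw [mem_biUnion]
      have hex : ∃ h, x < 2 ^ (h + 1) * c := ⟨H, hH x hx.1⟩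
      have h1 := Nat.find_spec hex
      set h := Nat.find hex with hh
      refine ⟨h, ?_, ?_⟩
      · rw [mem_range]
        have := Nat.find_min' hex (hH x hx.1)
        omega
      · rw [mem_filter]
        refine ⟨hx.1, ?_, h1⟩
        rcases Nat.eq_zero_or_pos h with h0 | h0
        · rw [h0, pow_zero, one_mul]
          omega
        · obtain ⟨k, hk⟩ : ∃ k, h = k + 1 := ⟨h - 1, by omega⟩
          have := Nat.find_min hex (m := k) (by omega)
          rw [hk]
          omega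
  refine (card_le_card hcov).trans ((card_union_le _ _).trans (add_le_add he ?_))
  refine card_biUnion_le.trans ?_
  have : ∀ h ∈ range (H + 1), (Z.filter fun x => 2 ^ h * c ≤ x ∧ x < 2 ^ (h + 1) * c).card ≤
      QQ n s (chg Z).card b.natAbs * (n + 1) ^ (H / (s + 1)) := by
    intro h hh
    rw [mem_range] at hh
    refine (levels (s := s) ha hao hb hZ hc hc0 hn he h).trans ?_
    apply Nat.mul_le_mul_left
    apply Nat.pow_le_pow_right (by omega)
    exact Nat.div_le_div_right (by omega)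
  refine (sum_le_sum this).trans ?_
  rw [sum_const, card_range, smul_eq_mul]

/-- **The number of the elements.** Here `A` is the number of parity changes, `(a + 1) / 2 ≤ 2 ^ γ`,
`|b| < 2 ^ β`, and some element has absolute value less than `2 ^ ν`. -/
theorem count (ha : 3 ≤ a) (hao : a % 2 = 1) (hb : b % 2 = 1) {Z : Finset ℤ} (hZ : Cyc a b Z)
    {γ β ν m H : ℕ} (hγ : (a + 1) / 2 ≤ 2 ^ γ) (hβ : b.natAbs < 2 ^ β) {x0 : ℤ} (hx0 : x0 ∈ Z)
    (hν : |x0| < 2 ^ ν) (hH : H = γ * ((chg Z).card + 1)) (hm : m = 2 * (H + β + ν) + 9) (hγ1 : 1 ≤ γ)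
    (s : ℕ) : Z.card ≤ 2 ^ (s + 6) * b.natAbs * m ^ (5 + H / (s + 1)) := by
  classical
  have hb1 : 1 ≤ |b| := Int.one_le_abs (by rintro rfl; norm_num at hb)
  have hbn : (b.natAbs : ℤ) = |b| := by rw [Int.abs_eq_natAbs]
  have hB1 : 1 ≤ b.natAbs := by omega
  -- the least absolute value
  obtain ⟨x1, hx1, hmin⟩ := exists_min_image Z (fun x => |x|) ⟨x0, hx0⟩
  set N := |x1| with hN
  have hNν : N < 2 ^ ν := (hmin x0 hx0).trans_lt hν
  have hN0 : 0 ≤ N := abs_nonneg _
  set A := (chg Z).card with hA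
  set n := 2 * (H + β + ν) + 8 with hnd
  have hmn : m = n + 1 := by omega
  set c : ℤ := max (n * |b|) N with hcd
  have hc1 : n * |b| ≤ c := le_max_left _ _
  have hc2 : N ≤ c := le_max_right _ _
  have hn1 : (8 : ℤ) ≤ n := by rw [hnd]; push_cast; omega
  have hbc : |b| ≤ c := by nlinarith
  have hc0 : 0 < c := by omega
  have hg : ((a + 1) / 2) ^ (A + 1) ≤ 2 ^ H := by
    rw [hH, pow_mul]
    exact pow_le_pow_left₀ (by omega) hγ _
  have hsize : ∀ z ∈ Z, |z| ≤ c * 2 ^ H := by
    intro z hz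
    refine (abs_le_of ha hao hb hZ hx1 hbc hc2 hz).trans ?_
    exact mul_le_mul_of_nonneg_left hg hc0.le
  have hcn : c * 2 ^ (H + 1) ≤ 2 ^ n - 1 := by
    have h1 : N * 2 ^ (H + 1) ≤ 2 ^ n - 1 := by
      have h2 : N + 1 ≤ 2 ^ ν := by omega
      have h3 : (N + 1) * 2 ^ (H + 1) ≤ 2 ^ ν * 2 ^ (H + 1) := mul_le_mul_of_nonneg_right h2 (by positivity)
      rw [← pow_add] at h3
      have h4 : (2 : ℤ) ^ (ν + (H + 1)) ≤ 2 ^ n := pow_le_pow_right₀ (by norm_num) (by omega)
      have h5 : (1 : ℤ) ≤ 2 ^ (H + 1) := one_le_pow₀ (by norm_num)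
      nlinarith
    have h2 : (n * |b|) * 2 ^ (H + 1) ≤ 2 ^ n - 1 := by
      have h3 : |b| + 1 ≤ 2 ^ β := by
        rw [← hbn]
        have : b.natAbs + 1 ≤ 2 ^ β := hβ
        exact_mod_cast this
      have h4 : (n : ℤ) ≤ 2 ^ (H + β + ν + 3) := by
        have h5 : H + β + ν < 2 ^ (H + β + ν) := Nat.lt_two_pow_self
        have h6 : n ≤ 2 ^ (H + β + ν + 3) := by
          rw [pow_add]
          omega
        exact_mod_cast h6
      have h5 : (n : ℤ) * (|b| + 1) * 2 ^ (H + 1) ≤ 2 ^ (H + β + ν + 3) * 2 ^ β * 2 ^ (H + 1) := by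
        apply mul_le_mul_of_nonneg_right _ (by positivity)
        exact mul_le_mul h4 h3 (by omega) (by positivity)
      rw [← pow_add, ← pow_add] at h5
      have h6 : (2 : ℤ) ^ (H + β + ν + 3 + β + (H + 1)) ≤ 2 ^ n := pow_le_pow_right₀ (by norm_num) (by omega)
      have h7 : (1 : ℤ) ≤ 2 ^ (H + 1) := one_le_pow₀ (by norm_num)
      nlinarith
    rcases le_total (n * |b|) N with h | h
    · rw [hcd, max_eq_right h]; exact h1
    · rw [hcd, max_eq_left h]; exact h2
  have hdiff : ∀ x ∈ Z, ∀ x' ∈ Z, x' - x < 2 ^ n := by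
    intro x hx x' hx'
    have h1 := abs_le.1 (hsize x hx)
    have h2 := abs_le.1 (hsize x' hx')
    rw [pow_succ] at hcn
    linarith
  have hHlt : ∀ z ∈ Z, |z| < 2 ^ (H + 1) * c := by
    intro z hz
    have h1 := hsize z hz
    have h2 : (1 : ℤ) ≤ 2 ^ H := one_le_pow₀ (by norm_num)
    rw [pow_succ]
    nlinarith
  -- elements of absolute value less than `c`
  have hsmall : ∀ Y : Finset ℤ, (∀ y ∈ Y, N ≤ |y|) → (Y.filter fun x => 0 < x ∧ x < c).card ≤ n * b.natAbs := by
    intro Y hY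
    rcases le_total (n * |b|) N with h | h
    · have : (Y.filter fun x => 0 < x ∧ x < c) = ∅ := by
        rw [filter_eq_empty_iff]
        rintro y hy ⟨h1, h2⟩
        have h3 := hY y hy
        rw [abs_of_pos h1] at h3
        rw [hcd, max_eq_right h] at h2
        omega
      rw [this, card_empty]
      exact Nat.zero_le _
    · have h4 : (Y.filter fun x => 0 < x ∧ x < c) ⊆ Finset.Ioo 0 c := by
        intro y hy
        rw [mem_filter] at hy
        exact Finset.mem_Ioo.2 hy.2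
      refine (card_le_card h4).trans ?_
      rw [Int.card_Ioo, hcd, max_eq_left h, ← hbn]
      have : ((n : ℤ) * (b.natAbs : ℤ) - 0 - 1).toNat ≤ n * b.natAbs := by
        rw [Int.toNat_le]
        push_cast
        omega
      exact this
  -- both signs
  have hpos := positive (s := s) (H := H) ha hao hb hZ hc1 hc0 hdiff (hsmall Z hmin)
    (fun x hx => (le_abs_self x).trans_lt (hHlt x hx))
  have hneg := positive (s := s) (H := H) ha hao (b := -b) (by omega) (hZ.neg hao hb) (n := n) (c := c)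
    (by rw [abs_neg]; exact hc1) hc0 (by
      intro x hx x' hx'
      rw [mem_nn] at hx hx'
      have := hdiff _ hx' _ hx
      omega) (by
      rw [Int.natAbs_neg]
      apply hsmall
      intro y hy
      rw [mem_nn] at hy
      have := hmin _ hy
      rwa [abs_neg] at this) (by
      intro x hx
      rw [mem_nn] at hx
      have := hHlt _ hx
      rw [abs_neg] at this
      exact (le_abs_self x).trans_lt this)
  rw [Int.natAbs_neg, chg_nn] at hneg
  have hnegc : ((nn Z).filter fun x => 0 < x).card = (Z.filter fun x => x < 0).card := by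
    have : (nn Z).filter (fun x => 0 < x) = nn (Z.filter fun x => x < 0) := by
      ext x
      rw [mem_filter, mem_nn, mem_nn, mem_filter]
      constructor
      · rintro ⟨h1, h2⟩; exact ⟨h1, by omega⟩
      · rintro ⟨h1, h2⟩; exact ⟨h1, by omega⟩
    rw [this, card_nn]
  rw [hnegc] at hneg
  have htot : Z.card ≤ 1 + (Z.filter fun x => 0 < x).card + (Z.filter fun x => x < 0).card := by
    have hcov : Z ⊆ {0} ∪ (Z.filter fun x => 0 < x) ∪ (Z.filter fun x => x < 0) := by
      intro x hx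
      rw [mem_union, mem_union, mem_singleton, mem_filter, mem_filter]
      rcases lt_trichotomy x 0 with h | h | h
      · exact Or.inr ⟨hx, h⟩
      · exact Or.inl (Or.inl h)
      · exact Or.inl (Or.inr ⟨hx, h⟩)
    refine (card_le_card hcov).trans ((card_union_le _ _).trans ?_)
    apply add_le_add_left
    refine (card_union_le _ _).trans ?_
    rw [card_singleton]
  rw [← hA] at hpos hneg
  -- arithmetic
  set B := b.natAbs with hB
  set P := (n + 1) ^ (H / (s + 1)) with hP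
  have hP1 : 1 ≤ P := Nat.one_le_pow _ _ (by omega)
  have hAn : A ≤ n := by
    have : A + 1 ≤ H := by rw [hH]; nlinarith
    omega
  have hHn : H + 1 ≤ n := by omega
  have hQ : QQ n s A B ≤ 2 ^ (s + 3) * B * (n + 1) ^ 4 := by
    unfold QQ
    have h2s : 1 ≤ 2 ^ (s + 1) := Nat.one_le_two_pow
    have h1 : n * (n + 1) * A * (2 ^ (s + 1) * n * B + 1) ≤ (n + 1) ^ 3 * (2 ^ (s + 1) * B * (n + 1)) := by
      have h2 : n * (n + 1) * A ≤ (n + 1) ^ 3 := by
        calc n * (n + 1) * A ≤ (n + 1) * (n + 1) * (n + 1) :=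
              Nat.mul_le_mul (Nat.mul_le_mul (by omega) le_rfl) (by omega)
          _ = (n + 1) ^ 3 := by ring
      have h3 : 2 ^ (s + 1) * n * B + 1 ≤ 2 ^ (s + 1) * B * (n + 1) := by
        have : 1 ≤ 2 ^ (s + 1) * B := Nat.one_le_iff_ne_zero.2 (by positivity)
        calc 2 ^ (s + 1) * n * B + 1 ≤ 2 ^ (s + 1) * n * B + 2 ^ (s + 1) * B := by omega
          _ = 2 ^ (s + 1) * B * (n + 1) := by ring
      exact Nat.mul_le_mul h2 h3
    have h4 : n * (n * B) ≤ 2 ^ (s + 1) * B * (n + 1) ^ 4 := by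
      have h5 : n * n ≤ (n + 1) ^ 4 := by
        calc n * n ≤ (n + 1) * (n + 1) := Nat.mul_le_mul (by omega) (by omega)
          _ = (n + 1) ^ 2 := by ring
          _ ≤ (n + 1) ^ 4 := Nat.pow_le_pow_right (by omega) (by norm_num)
      calc n * (n * B) = 1 * B * (n * n) := by ring
        _ ≤ 2 ^ (s + 1) * B * (n + 1) ^ 4 := Nat.mul_le_mul (Nat.mul_le_mul h2s le_rfl) h5
    have h6 : 1 ≤ 2 ^ (s + 1) * B * (n + 1) ^ 4 := Nat.one_le_iff_ne_zero.2 (by positivity)
    have e : 2 ^ (s + 3) * B * (n + 1) ^ 4 = 4 * (2 ^ (s + 1) * B * (n + 1) ^ 4) := by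
      rw [show s + 3 = s + 1 + 2 by ring, pow_add]; ring
    have e2 : (n + 1) ^ 3 * (2 ^ (s + 1) * B * (n + 1)) = 2 ^ (s + 1) * B * (n + 1) ^ 4 := by ring
    rw [e]
    rw [e2] at h1
    omega
  have hmain : n * B + (H + 1) * (QQ n s A B * P) ≤ 2 * (2 ^ (s + 3) * B * ((n + 1) ^ 5 * P)) := by
    have h1 : n * B ≤ 2 ^ (s + 3) * B * ((n + 1) ^ 5 * P) := by
      have h2 : n ≤ (n + 1) ^ 5 * P := by
        calc n ≤ (n + 1) := by omega
          _ = (n + 1) ^ 1 := by ring
          _ ≤ (n + 1) ^ 5 := Nat.pow_le_pow_right (by omega) (by norm_num)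
          _ ≤ (n + 1) ^ 5 * P := Nat.le_mul_of_pos_right _ hP1
      calc n * B = 1 * B * n := by ring
        _ ≤ 2 ^ (s + 3) * B * ((n + 1) ^ 5 * P) :=
          Nat.mul_le_mul (Nat.mul_le_mul Nat.one_le_two_pow le_rfl) h2
    have h2 : (H + 1) * (QQ n s A B * P) ≤ 2 ^ (s + 3) * B * ((n + 1) ^ 5 * P) := by
      calc (H + 1) * (QQ n s A B * P) ≤ (n + 1) * ((2 ^ (s + 3) * B * (n + 1) ^ 4) * P) :=
            Nat.mul_le_mul (by omega) (Nat.mul_le_mul hQ le_rfl)
        _ = 2 ^ (s + 3) * B * ((n + 1) ^ 5 * P) := by ring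
    omega
  have hfin : 2 ^ (s + 6) * B * m ^ (5 + H / (s + 1)) = 8 * (2 ^ (s + 3) * B * ((n + 1) ^ 5 * P)) := by
    rw [hmn, hP, show s + 6 = s + 3 + 3 by ring, pow_add 2 (s + 3) 3, pow_add (n + 1) 5 (H / (s + 1))]
    ring
  rw [hfin]
  have h1 : 1 ≤ 2 ^ (s + 3) * B * ((n + 1) ^ 5 * P) := Nat.one_le_iff_ne_zero.2 (by positivity)
  omega

end Pool.Agent.V5helper2.PC
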