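import Mathlib
import Pool.Agent.V5helper2.PC.Count

set_option autoImplicit false

/-!
The number of parity changes: real estimates.
-/

namespace Pool.Agent.V5helper2.PC

open Finset Pool.Agent.H944.BX

variable {a b : ℤ}

theorem real_count (ha : 3 ≤ a) (hao : a % 2 = 1) (hb : b % 2 = 1) {Z : Finset ℤ} (hZ : Cyc a b Z)
    {γ β ν m H : ℕ} (hγ : (a + 1) / 2 ≤ 2 ^ γ) (hβ : b.natAbs < 2 ^ β) {x0 : ℤ} (hx0 : x0 ∈ Z)
    (hν : |x0| < 2 ^ ν) (hH : H = γ * ((chg Z).card + 1)) (hm : m = 2 * (H + β + ν) + 9) (hγ1 : 1 ≤ γ) :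
    Real.log Z.card ≤ 2 * Real.sqrt (H * Real.log m) + 6 + Real.log |(b : ℝ)| + 5 * Real.log m := by
  set w := Real.log m with hw
  have hm9 : (9 : ℝ) ≤ m := by
    have : 9 ≤ m := by omega
    exact_mod_cast this
  have hw0 : 0 < w := Real.log_pos (by linarith)
  set S := Real.sqrt (H * w) with hS
  have hS0 : 0 ≤ S := Real.sqrt_nonneg _
  have hSS : S * S = H * w := Real.mul_self_sqrt (by positivity)
  obtain ⟨s, hs⟩ : ∃ s, s = ⌊S⌋₊ := ⟨_, rfl⟩
  have hs1 : (s : ℝ) ≤ S := by rw [hs]; exact Nat.floor_le hS0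
  have hs2 : S < s + 1 := by rw [hs]; exact Nat.lt_floor_add_one S
  have h := count ha hao hb hZ hγ hβ hx0 hν hH hm hγ1 s
  have hcard : 0 < Z.card := card_pos.2 ⟨x0, hx0⟩
  have hb1 : (1 : ℝ) ≤ |(b : ℝ)| := by
    have : 1 ≤ |b| := Int.one_le_abs (by rintro rfl; norm_num at hb)
    exact_mod_cast this
  have hbn : ((b.natAbs : ℕ) : ℝ) = |(b : ℝ)| := by
    rw [Nat.cast_natAbs, Int.cast_abs]
  have h1 : Real.log Z.card ≤ Real.log (2 ^ (s + 6) * |(b : ℝ)| * (m : ℝ) ^ (5 + H / (s + 1))) := by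
    apply Real.log_le_log (by exact_mod_cast hcard)
    rw [← hbn]
    exact_mod_cast h
  rw [Real.log_mul (by positivity) (by positivity), Real.log_mul (by positivity) (by positivity),
    Real.log_pow, Real.log_pow] at h1
  have hl2 : Real.log 2 ≤ 1 := by have := Real.log_two_lt_d9; linarith
  have hl20 : 0 ≤ Real.log 2 := Real.log_nonneg (by norm_num)
  have h2 : ((s + 6 : ℕ) : ℝ) * Real.log 2 ≤ S + 6 := by
    push_cast
    nlinarith
  have h3 : (((H / (s + 1) : ℕ)) : ℝ) ≤ H / (s + 1) := by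
    have := @Nat.cast_div_le ℝ _ _ _ H (s + 1)
    push_cast at this
    exact this
  have h4 : (((H / (s + 1) : ℕ)) : ℝ) * w ≤ S := by
    have h5 : (H : ℝ) / (s + 1) * w ≤ S := by
      rw [div_mul_eq_mul_div, div_le_iff₀ (by positivity), ← hSS]
      exact mul_le_mul_of_nonneg_left hs2.le hS0
    exact (mul_le_mul_of_nonneg_right h3 hw0.le).trans h5
  have h5 : ((5 + H / (s + 1) : ℕ) : ℝ) * w ≤ 5 * w + S := by
    push_cast
    push_cast at h4
    linarith
  linarith

theorem final_real (γ C0 : ℝ) (hγ : 1 ≤ γ) (hC0 : 1 ≤ C0) : ∃ C : ℝ, 0 < C ∧ ∀ l A w : ℝ, 0 ≤ l → 1 ≤ A →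
    0 ≤ w → w ≤ Real.log (C0 * (A + (1 + l) ^ 2)) → l / 2 ≤ 2 * Real.sqrt (γ * A * w) + 6 + 5 * w →
    l ^ 2 ≤ C * A * Real.log (2 + l) := by
  have l2 := Real.log_two_gt_d9
  have l20 : 0 < Real.log 2 := by linarith
  set K : ℝ := 2 + Real.log (2 * C0) / Real.log 2 with hK
  have hlC : Real.log 2 ≤ Real.log (2 * C0) := Real.log_le_log (by norm_num) (by linarith)
  have hK3 : 3 ≤ K := by
    have : 1 ≤ Real.log (2 * C0) / Real.log 2 := by rw [le_div_iff₀ l20]; linarith
    linarith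
  set C4 : ℝ := 13 / 2 + 5 * K * Real.log (20 * K) with hC4
  have hlK : 0 ≤ Real.log (20 * K) := Real.log_nonneg (by linarith)
  have hC40 : 0 ≤ C4 := by positivity
  set D : ℝ := 4 * (2 * Real.sqrt (γ * K) + 2 * C4) with hD
  have hD0 : 0 ≤ D := by positivity
  refine ⟨2 + D ^ 2, by positivity, fun l A w hl hA hw0 hw h => ?_⟩
  set lam := Real.log (2 + l) with hlam
  have hlam2 : Real.log 2 ≤ lam := Real.log_le_log (by norm_num) (by linarith)
  have hlam0 : 0.69 ≤ lam := by linarith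
  rcases le_or_gt (l ^ 2) A with hcase | hcase
  · have h1 : A ≤ 2 * A * lam := by nlinarith
    have h2 : 0 ≤ D ^ 2 * A * lam := by positivity
    nlinarith
  · -- bound of `w`
    have h1 : C0 * (A + (1 + l) ^ 2) ≤ 2 * C0 * (2 + l) ^ 2 := by
      have h2 : A + (1 + l) ^ 2 ≤ 2 * (2 + l) ^ 2 := by nlinarith
      nlinarith
    have h2 : w ≤ K * lam := by
      refine hw.trans ((Real.log_le_log (by positivity) h1).trans ?_)
      rw [Real.log_mul (by positivity) (by positivity), Real.log_pow]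
      have h3 : Real.log (2 * C0) ≤ Real.log (2 * C0) / Real.log 2 * lam := by
        rw [div_mul_eq_mul_div, le_div_iff₀ l20]
        exact mul_le_mul_of_nonneg_left hlam2 (by linarith)
      rw [hK]
      push_cast
      linarith
    have h3 : Real.sqrt (γ * A * w) ≤ Real.sqrt (γ * K) * Real.sqrt (A * lam) := by
      rw [← Real.sqrt_mul (by positivity)]
      apply Real.sqrt_le_sqrt
      calc γ * A * w ≤ γ * A * (K * lam) := mul_le_mul_of_nonneg_left h2 (by positivity)
        _ = γ * K * (A * lam) := by ring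
    have h4 : 5 * K * lam ≤ (2 + l) / 4 + 5 * K * Real.log (20 * K) := by
      have h5 : Real.log ((2 + l) / (20 * K)) ≤ (2 + l) / (20 * K) - 1 :=
        Real.log_le_sub_one_of_pos (by positivity)
      rw [Real.log_div (by positivity) (by positivity)] at h5
      have h6 : 5 * K * (lam - Real.log (20 * K)) ≤ 5 * K * ((2 + l) / (20 * K) - 1) :=
        mul_le_mul_of_nonneg_left h5 (by positivity)
      have hK0 : K ≠ 0 := by linarith
      have h7 : 5 * K * ((2 + l) / (20 * K) - 1) = (2 + l) / 4 - 5 * K := by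
        have h8 : 5 * K * ((2 + l) / (20 * K)) = (2 + l) / 4 := by
          rw [← mul_div_assoc, div_eq_div_iff (by positivity) (by norm_num)]
          ring
        rw [mul_sub, h8, mul_one]
      rw [h7] at h6
      nlinarith
    have h5 : l / 4 ≤ 2 * (Real.sqrt (γ * K) * Real.sqrt (A * lam)) + C4 := by
      rw [hC4]
      nlinarith
    have h6 : (1 : ℝ) / 2 ≤ Real.sqrt (A * lam) := by
      rw [Real.le_sqrt' (by norm_num)]
      nlinarith
    have h7 : C4 ≤ 2 * C4 * Real.sqrt (A * lam) := by nlinarith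
    have h8 : l ≤ D * Real.sqrt (A * lam) := by
      rw [hD]
      nlinarith
    have h9 : l ^ 2 ≤ D ^ 2 * (A * lam) := by
      calc l ^ 2 ≤ (D * Real.sqrt (A * lam)) ^ 2 := pow_le_pow_left₀ hl h8 2
        _ = D ^ 2 * (A * lam) := by rw [mul_pow, Real.sq_sqrt (by positivity)]
    have h10 : 0 ≤ 2 * A * lam := by positivity
    nlinarith

end Pool.Agent.V5helper2.PC
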