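import Mathlib
import Pool.Agent.V5helper2.PC.Real
import Pool.Agent.H547R3.Cyc
import Pool.Agent.H319R2.Measure

set_option autoImplicit false

/-!
The number of parity changes: the `3x+1` map.
-/

namespace Pool.Agent.V5helper2.PC

open Finset Pool.Agent.H944.BX

theorem cyc_one {Z : Finset ℤ} (hZ : Pool.Agent.H547R3.IsCycle Z) : Cyc 3 1 Z := by
  obtain ⟨x, p, hp, hx, rfl⟩ := hZ
  exact cyc_of (a := 3) (b := 1) hp hx

theorem card_ne {Z : Finset ℤ} (hZ : Pool.Agent.H547R3.IsCycle Z) : 1 ≤ Z.card := hZ.card_pos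

/-- the least element of a cycle -/
theorem least_le : ∃ C : ℝ, 1 ≤ C ∧ ∀ Z : Finset ℤ, Pool.Agent.H547R3.IsCycle Z → (0 : ℤ) ∉ Z →
    ∀ N : ℤ, 0 < N → (∀ x ∈ Z, N ≤ |x|) → (N : ℝ) ≤ C * (Z.card : ℝ) ^ 14 := by
  obtain ⟨c, hc, hm⟩ := Pool.Agent.H319R2.measure
  refine ⟨max 1 (2 ^ 12 / c), le_max_left _ _, fun Z hZ h0 N hN hmin => ?_⟩
  have hn := hZ.card_pos
  set n := Z.card
  set K := Pool.Agent.H547R3.odds Z
  have hKn : K ≤ n := card_filter_le _ _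
  have hnR : (1 : ℝ) ≤ n := by exact_mod_cast hn
  have hKR : (K : ℝ) ≤ n := by exact_mod_cast hKn
  have hNR : (0 : ℝ) < N := by exact_mod_cast hN
  have h1 := hm (n : ℤ) (-(K : ℤ)) (Or.inl (by omega))
  have h2 : (((|(n : ℤ)| + |-(K : ℤ)| : ℤ)) : ℝ) ≤ 2 * n := by
    rw [abs_neg, Nat.abs_cast, Nat.abs_cast]
    push_cast
    linarith
  have h20 : (0 : ℝ) ≤ (((|(n : ℤ)| + |-(K : ℤ)| : ℤ)) : ℝ) := by positivity
  have h3 : |((n : ℤ) : ℝ) * Real.log 2 + ((-(K : ℤ) : ℤ) : ℝ) * Real.log 3| =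
      |(n : ℝ) * Real.log 2 - K * Real.log 3| := by push_cast; congr 1; ring
  rw [h3] at h1
  set Λ := |(n : ℝ) * Real.log 2 - K * Real.log 3| with hΛ
  have hΛ0 : 0 ≤ Λ := abs_nonneg _
  have h4 : c ≤ (2 * (n : ℝ)) ^ 13 * Λ :=
    h1.trans (mul_le_mul_of_nonneg_right (pow_le_pow_left₀ h20 h2 13) hΛ0)
  have h5 := hZ.form_le h0
  have h6 : ∑ x ∈ Z, 1 / |(x : ℝ)| ≤ Z.card • (1 / (N : ℝ)) := by
    apply sum_le_card_nsmul
    intro y hy
    apply one_div_le_one_div_of_le hNR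
    exact_mod_cast hmin y hy
  rw [nsmul_eq_mul] at h6
  have h7 : Λ ≤ 1 / 2 * (n * (1 / N)) := h5.trans (by linarith)
  have h8 : c ≤ (2 * (n : ℝ)) ^ 13 * (1 / 2 * (n * (1 / N))) :=
    h4.trans (mul_le_mul_of_nonneg_left h7 (by positivity))
  have h9 : (2 * (n : ℝ)) ^ 13 * (1 / 2 * (n * (1 / N))) = 2 ^ 12 * (n : ℝ) ^ 14 / N := by
    field_simp
  rw [h9, le_div_iff₀ hNR] at h8
  have h10 : (N : ℝ) ≤ 2 ^ 12 / c * (n : ℝ) ^ 14 := by
    rw [div_mul_eq_mul_div, le_div_iff₀ hc]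
    linarith
  refine h10.trans (mul_le_mul_of_nonneg_right (le_max_right _ _) (by positivity))

/-- the number of binary digits -/
theorem digits {x : ℤ} (hx : x ≠ 0) : |x| < 2 ^ (Nat.log 2 x.natAbs + 1) ∧
    ((Nat.log 2 x.natAbs + 1 : ℕ) : ℝ) ≤ 1 + 3 / 2 * Real.log |(x : ℝ)| := by
  have hna : x.natAbs ≠ 0 := Int.natAbs_ne_zero.2 hx
  constructor
  · have := Nat.lt_pow_succ_log_self (b := 2) (by norm_num) x.natAbs
    rw [Int.abs_eq_natAbs]
    exact_mod_cast this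
  · have h1 := Nat.pow_log_le_self 2 hna
    have h2 : (2 : ℝ) ^ (Nat.log 2 x.natAbs) ≤ |(x : ℝ)| := by
      have : ((x.natAbs : ℕ) : ℝ) = |(x : ℝ)| := by rw [Nat.cast_natAbs, Int.cast_abs]
      rw [← this]
      exact_mod_cast h1
    have h3 := Real.log_le_log (by positivity) h2
    rw [Real.log_pow] at h3
    have l2 := Real.log_two_gt_d9
    have h4 : (0 : ℝ) ≤ Nat.log 2 x.natAbs := Nat.cast_nonneg _
    push_cast
    nlinarith

/-- **The number of parity changes.** -/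
theorem main_one : ∃ C : ℝ, ∀ Z : Finset ℤ, Pool.Agent.H547R3.IsCycle Z →
    (Real.log Z.card) ^ 2 ≤ C * ((chg Z).card + 1) * Real.log (2 + Real.log Z.card) := by
  obtain ⟨C1, hC1, hN⟩ := least_le
  have hlC1 : 0 ≤ Real.log C1 := Real.log_nonneg hC1
  set C0 : ℝ := 60 + 3 * Real.log C1 with hC0
  obtain ⟨C, hC, hfin⟩ := final_real 1 C0 le_rfl (by linarith)
  refine ⟨C, fun Z hZ => ?_⟩
  have hn := hZ.card_pos
  have hnR : (1 : ℝ) ≤ Z.card := by exact_mod_cast hn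
  have hl0 : 0 ≤ Real.log Z.card := Real.log_nonneg hnR
  by_cases h0 : (0 : ℤ) ∈ Z
  · have hcard : Z.card = 1 := by
      have hc0 : Pool.Agent.H547R3.IsCycle ({0} : Finset ℤ) := ⟨0, 1, by norm_num, by decide, by decide⟩
      rw [hZ.eq_of_mem hc0 h0 (by simp)]
      rfl
    rw [hcard, Nat.cast_one, Real.log_one, add_zero, zero_pow two_ne_zero]
    have : 0 ≤ Real.log 2 := Real.log_nonneg (by norm_num)
    exact mul_nonneg (mul_nonneg hC.le (by positivity)) this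
  obtain ⟨x0, hx0, hmin⟩ := exists_min_image Z (fun x => |x|) (card_pos.1 hn)
  have hx00 : x0 ≠ 0 := fun h => h0 (h ▸ hx0)
  have h1 := hN Z hZ h0 |x0| (abs_pos.2 hx00) hmin
  obtain ⟨hd1, hd2⟩ := digits hx00
  set ν := Nat.log 2 x0.natAbs + 1 with hν
  set A := (chg Z).card with hA
  set l := Real.log Z.card with hl
  have h2 : Real.log |(x0 : ℝ)| ≤ Real.log C1 + 14 * l := by
    rw [Int.cast_abs] at h1
    have hx0R : (0 : ℝ) < |(x0 : ℝ)| := by
      have : (x0 : ℝ) ≠ 0 := by exact_mod_cast hx00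
      positivity
    have h3 := Real.log_le_log hx0R h1
    rw [Real.log_mul (by positivity) (by positivity), Real.log_pow] at h3
    push_cast at h3
    exact h3
  have hmain := real_count (a := 3) (b := 1) (by norm_num) (by norm_num) (by norm_num) (cyc_one hZ)
    (γ := 1) (β := 1) (ν := ν) (m := 2 * ((1 * (A + 1)) + 1 + ν) + 9) (H := 1 * (A + 1)) (by norm_num)
    (by norm_num) hx0 hd1 rfl rfl le_rfl
  rw [Int.cast_one, abs_one, Real.log_one, add_zero, ← hl] at hmain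
  have hm1 : (((2 * ((1 * (A + 1)) + 1 + ν) + 9 : ℕ)) : ℝ) = 2 * (A + 1) + 2 * ν + 11 := by
    push_cast
    ring
  rw [hm1] at hmain
  have hA0 : (0 : ℝ) ≤ A := Nat.cast_nonneg _
  have hν0 : (0 : ℝ) ≤ ν := Nat.cast_nonneg _
  have hH : ((1 * (A + 1) : ℕ) : ℝ) = 1 * ((A : ℝ) + 1) := by push_cast; ring
  rw [hH] at hmain
  refine hfin l (A + 1) (Real.log (2 * ((A : ℝ) + 1) + 2 * ν + 11)) hl0 (by linarith)
    (Real.log_nonneg (by linarith)) ?_ ?_
  · apply Real.log_le_log (by positivity)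
    have h3 : (ν : ℝ) ≤ 1 + 3 / 2 * (Real.log C1 + 14 * l) := by linarith
    rw [hC0]
    nlinarith [mul_nonneg hlC1 hA0, mul_nonneg hlC1 hl0, sq_nonneg l, mul_nonneg hlC1 (sq_nonneg l)]
  · linarith

/-- the largest element -/
theorem max_one {Z : Finset ℤ} (hZ : Pool.Agent.H547R3.IsCycle Z) {x z : ℤ} (hx : x ∈ Z) (hz : z ∈ Z)
    (h0 : (0 : ℤ) ∉ Z) : |z| ≤ 2 ^ ((chg Z).card + 1) * |x| := by
  have hx0 : x ≠ 0 := fun h => h0 (h ▸ hx)
  have h1 : 1 ≤ |x| := Int.one_le_abs hx0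
  have := abs_le_of (a := 3) (b := 1) (by norm_num) (by norm_num) (by norm_num) (cyc_one hZ) hx
    (c := |x|) (by rw [abs_one]; exact h1) le_rfl hz
  rw [mul_comm]
  norm_num at this
  exact this

end Pool.Agent.V5helper2.PC
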