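import Mathlib
import Pool.Agent.V5helper2.PC.Count2
import Pool.Agent.V5helper2.PC.One

set_option autoImplicit false

/-!
The number of parity changes: final estimates.
-/

namespace Pool.Agent.V5helper2.PC

open Finset Pool.Agent.H944.BX

theorem final_real2 (C0 : ℝ) (hC0 : 1 ≤ C0) : ∃ c : ℝ, 0 < c ∧ ∀ l A m : ℝ, 0 ≤ l → 1 ≤ A →
    1 ≤ m → m ≤ C0 * (A + l) → l ≤ 5 * (1 + Real.log m) ^ 2 → c * Real.exp (Real.sqrt (l / 5)) ≤ A := by
  set K : ℝ := 1 + Real.log (2 * C0) with hK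
  have hlC : 0 ≤ Real.log (2 * C0) := Real.log_nonneg (by linarith)
  set B : ℝ := (3 * (K + 4)) ^ 4 with hB
  have hB0 : 0 < B := by positivity
  refine ⟨min (1 / Real.exp K) (1 / Real.exp (Real.sqrt (B / 5))), by positivity,
    fun l A m hl hA hm hmC h => ?_⟩
  have hlm : 0 ≤ Real.log m := Real.log_nonneg hm
  have hs : Real.sqrt (l / 5) ≤ 1 + Real.log m := by
    rw [Real.sqrt_le_left (by linarith)]
    linarith
  rcases le_or_gt l A with hcase | hcase
  · have h1 : m ≤ 2 * C0 * A := by nlinarith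
    have h2 := Real.log_le_log (by linarith) h1
    rw [Real.log_mul (by positivity) (by positivity)] at h2
    have h3 : Real.exp (Real.sqrt (l / 5)) ≤ Real.exp (K + Real.log A) :=
      Real.exp_le_exp.2 (by rw [hK]; linarith)
    rw [Real.exp_add, Real.exp_log (by linarith)] at h3
    have h4 : min (1 / Real.exp K) (1 / Real.exp (Real.sqrt (B / 5))) * Real.exp (Real.sqrt (l / 5)) ≤
        1 / Real.exp K * (Real.exp K * A) :=
      mul_le_mul (min_le_left _ _) h3 (Real.exp_pos _).le (by positivity)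
    refine h4.trans (le_of_eq ?_)
    rw [← mul_assoc, one_div, inv_mul_cancel₀ (Real.exp_pos _).ne', one_mul]
  · have h1 : m ≤ 2 * C0 * l := by nlinarith
    have hl1 : 1 < l := by linarith
    have h2 := Real.log_le_log (by linarith) h1
    rw [Real.log_mul (by positivity) (by positivity)] at h2
    -- `log l ≤ 4 l ^ (1/4)`
    obtain ⟨q, hq⟩ : ∃ q : ℝ, q = Real.sqrt (Real.sqrt l) := ⟨_, rfl⟩
    have hq0 : 0 ≤ q := by rw [hq]; exact Real.sqrt_nonneg _
    have hq2 : q ^ 2 = Real.sqrt l := by rw [hq, Real.sq_sqrt (Real.sqrt_nonneg _)]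
    have hq4 : q ^ 4 = l := by
      calc q ^ 4 = (q ^ 2) ^ 2 := by ring
        _ = l := by rw [hq2, Real.sq_sqrt hl]
    have hq1 : 1 < q := by
      by_contra hcon
      have : q ^ 4 ≤ 1 := pow_le_one₀ hq0 (not_lt.1 hcon)
      linarith
    have h3 : Real.log l ≤ 4 * q := by
      rw [← hq4, Real.log_pow]
      have := Real.log_le_sub_one_of_pos (show 0 < q by linarith)
      push_cast
      linarith
    have h4 : Real.sqrt (l / 5) ≤ K + 4 * q := by rw [hK]; linarith
    have h5 : l / 5 ≤ (K + 4 * q) ^ 2 := by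
      rw [Real.sqrt_le_left (by positivity)] at h4
      exact h4
    have h6 : q ≤ 3 * (K + 4) := by
      by_contra hcon
      rw [not_le] at hcon
      have h7 : K + 4 * q ≤ (K + 4) * q := by nlinarith
      have h8 : (K + 4 * q) ^ 2 ≤ ((K + 4) * q) ^ 2 := pow_le_pow_left₀ (by positivity) h7 2
      have h9 : ((K + 4) * q) ^ 2 ≤ (q / 3 * q) ^ 2 := by
        apply pow_le_pow_left₀ (by positivity)
        apply mul_le_mul_of_nonneg_right _ hq0
        linarith
      have h10 : (q / 3 * q) ^ 2 = l / 9 := by rw [← hq4]; ring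
      linarith
    have h7 : l ≤ B := by
      rw [← hq4, hB]
      exact pow_le_pow_left₀ hq0 h6 4
    have h8 : Real.exp (Real.sqrt (l / 5)) ≤ Real.exp (Real.sqrt (B / 5)) :=
      Real.exp_le_exp.2 (Real.sqrt_le_sqrt (by linarith))
    have h9 : min (1 / Real.exp K) (1 / Real.exp (Real.sqrt (B / 5))) * Real.exp (Real.sqrt (l / 5)) ≤
        1 / Real.exp (Real.sqrt (B / 5)) * Real.exp (Real.sqrt (B / 5)) :=
      mul_le_mul (min_le_right _ _) h8 (Real.exp_pos _).le (by positivity)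
    have h10 : 1 / Real.exp (Real.sqrt (B / 5)) * Real.exp (Real.sqrt (B / 5)) = 1 :=
      one_div_mul_cancel (Real.exp_pos _).ne'
    linarith

/-- **The number of parity changes.** -/
theorem main_two : ∃ c : ℝ, 0 < c ∧ ∀ Z : Finset ℤ, Pool.Agent.H547R3.IsCycle Z →
    c * Real.exp (Real.sqrt (Real.log Z.card / 5)) ≤ (chg Z).card + 1 := by
  obtain ⟨C1, hC1, hN⟩ := least_le
  have hlC1 : 0 ≤ Real.log C1 := Real.log_nonneg hC1
  set C0 : ℝ := 60 + 3 * Real.log C1 with hC0
  obtain ⟨c, hc, hfin⟩ := final_real2 C0 (by linarith)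
  refine ⟨min c 1, by positivity, fun Z hZ => ?_⟩
  have hn := hZ.card_pos
  have hnR : (1 : ℝ) ≤ Z.card := by exact_mod_cast hn
  have hl0 : 0 ≤ Real.log Z.card := Real.log_nonneg hnR
  by_cases h0 : (0 : ℤ) ∈ Z
  · have hcard : Z.card = 1 := by
      have hc0 : Pool.Agent.H547R3.IsCycle ({0} : Finset ℤ) := ⟨0, 1, by norm_num, by decide, by decide⟩
      rw [hZ.eq_of_mem hc0 h0 (by simp)]
      rfl
    rw [hcard, Nat.cast_one, Real.log_one, zero_div, Real.sqrt_zero, Real.exp_zero, mul_one]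
    have h1 : min c 1 ≤ 1 := min_le_right _ _
    have h2 : (0 : ℝ) ≤ (chg Z).card := Nat.cast_nonneg _
    linarith
  obtain ⟨x0, hx0, hmin⟩ := exists_min_image Z (fun x => |x|) (card_pos.1 hn)
  have hx00 : x0 ≠ 0 := fun h => h0 (h ▸ hx0)
  have h1 := hN Z hZ h0 |x0| (abs_pos.2 hx00) hmin
  obtain ⟨hd1, hd2⟩ := digits hx00
  set ν := Nat.log 2 x0.natAbs + 1 with hν
  set A := (chg Z).card with hA
  set l := Real.log Z.card with hl
  have h2 : Real.log |(x0 : ℝ)| ≤ Real.log C1 + 14 * l := by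
    rw [Int.cast_abs] at h1
    have hx0R : (0 : ℝ) < |(x0 : ℝ)| := by
      have : (x0 : ℝ) ≠ 0 := by exact_mod_cast hx00
      positivity
    have h3 := Real.log_le_log hx0R h1
    rw [Real.log_mul (by positivity) (by positivity), Real.log_pow] at h3
    push_cast at h3
    exact h3
  have hmain := real_count2 (a := 3) (b := 1) (by norm_num) (by norm_num) (by norm_num) (cyc_one hZ)
    (γ := 1) (β := 1) (ν := ν) (m := 2 * ((1 * (A + 1)) + 1 + ν) + 9) (H := 1 * (A + 1)) (by norm_num)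
    (by norm_num) hx0 hd1 rfl rfl le_rfl
  rw [Int.cast_one, abs_one, Real.log_one, zero_add, ← hl] at hmain
  have hm1 : (((2 * ((1 * (A + 1)) + 1 + ν) + 9 : ℕ)) : ℝ) = 2 * (A + 1) + 2 * ν + 11 := by
    push_cast
    ring
  rw [hm1] at hmain
  have hA0 : (0 : ℝ) ≤ A := Nat.cast_nonneg _
  have hν0 : (0 : ℝ) ≤ ν := Nat.cast_nonneg _
  have hc1 : min c 1 * Real.exp (Real.sqrt (l / 5)) ≤ c * Real.exp (Real.sqrt (l / 5)) :=
    mul_le_mul_of_nonneg_right (min_le_left _ _) (Real.exp_pos _).le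
  refine hc1.trans (hfin l (A + 1) (2 * ((A : ℝ) + 1) + 2 * ν + 11) hl0 (by linarith)
    (by linarith) ?_ hmain)
  have h3 : (ν : ℝ) ≤ 1 + 3 / 2 * (Real.log C1 + 14 * l) := by linarith
  rw [hC0]
  nlinarith [mul_nonneg hlC1 hA0, mul_nonneg hlC1 hl0]

end Pool.Agent.V5helper2.PC
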