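import Mathlib
import Pool.Agent.V5helper2.PC.Fin2
import Pool.Agent.V5helper2.BC.Rep
import Pool.Agent.H944.BX.Zero

set_option autoImplicit false

/-!
Finitely many cycles of bounded length.
-/

namespace Pool.Agent.V5helper2.PC

open Finset Pool.Agent.H944.BX

theorem finite_of_card {S : Set (Finset ℤ)} {M : ℕ}
    (h : ∀ Z ∈ S, Pool.Agent.H547R3.IsCycle Z ∧ Z.card ≤ M) : S.Finite := by
  have hF := finite_periodic (a := 3) (b := 1) (by norm_num) (by norm_num) (by norm_num) M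
  refine Set.Finite.subset (hF.toFinset.powerset.finite_toSet) ?_
  intro Z hZ
  rw [mem_coe, mem_powerset]
  intro x hx
  rw [Set.Finite.mem_toFinset]
  obtain ⟨hc, hM⟩ := h Z hZ
  obtain ⟨h1, h2, h3⟩ := Pool.Agent.V5helper2.BC.per_of hc hx
  refine ⟨Z.card, h3, hM, ?_⟩
  have h4 : Pool.Agent.H319R2.T^[Z.card] x = x := by rw [← h1]; exact Function.iterate_minimalPeriod
  exact h4

theorem finite_chg (A : ℕ) : {Z : Finset ℤ | Pool.Agent.H547R3.IsCycle Z ∧ (chg Z).card ≤ A}.Finite := by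
  obtain ⟨c, hc, h⟩ := main_two
  refine finite_of_card (M := ⌈Real.exp (5 * (Real.log ((A + 1) / c)) ^ 2)⌉₊) ?_
  rintro Z ⟨hZ, hA⟩
  refine ⟨hZ, ?_⟩
  have h1 := h Z hZ
  have hA' : ((chg Z).card : ℝ) ≤ A := by exact_mod_cast hA
  have h2 : Real.exp (Real.sqrt (Real.log Z.card / 5)) ≤ (A + 1) / c := by
    rw [le_div_iff₀ hc]
    linarith
  have h3 := Real.log_le_log (Real.exp_pos _) h2
  rw [Real.log_exp] at h3
  have h4 : 0 ≤ Real.sqrt (Real.log Z.card / 5) := Real.sqrt_nonneg _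
  have h5 : Real.log Z.card / 5 ≤ (Real.log ((A + 1) / c)) ^ 2 := by
    rw [Real.sqrt_le_left (h4.trans h3)] at h3
    exact h3
  have hpos : (0 : ℝ) < Z.card := by exact_mod_cast hZ.card_pos
  have h6 : (Z.card : ℝ) ≤ Real.exp (5 * (Real.log ((A + 1) / c)) ^ 2) := by
    rw [← Real.log_le_iff_le_exp hpos]
    linarith
  exact_mod_cast h6.trans (Nat.le_ceil _)

end Pool.Agent.V5helper2.PC
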